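import Pool.Agent.T2h75.PD.Stm

namespace Pool.Agent.T2h75.PD
open Classical Finset

/-- vertex type of the example -/
abbrev VV (t m : ℕ) : Type := Fin m ⊕ (Fin 4 × ZMod t)

/-- adjacency of the example -/
def adj (t m : ℕ) : VV t m → VV t m → Prop
  | Sum.inl i, Sum.inl j => i ≠ j
  | Sum.inl _, Sum.inr (c, _) => c = 0 ∨ c = 3
  | Sum.inr (c, _), Sum.inl _ => c = 0 ∨ c = 3
  | Sum.inr (a, x), Sum.inr (b, y) => (a = b ∧ x ≠ y) ∨ (a = 0 ∧ b = 1) ∨ (a = 1 ∧ b = 0) ∨
      (a = 2 ∧ b = 3) ∨ (a = 3 ∧ b = 2) ∨ (a = 1 ∧ b = 2 ∧ (y = x ∨ (m = 2 ∧ y = x + 1))) ∨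
      (a = 2 ∧ b = 1 ∧ (x = y ∨ (m = 2 ∧ x = y + 1)))

def exG (t m : ℕ) : SimpleGraph (VV t m) where
  Adj := adj t m
  symm := ⟨by
    rintro (i | ⟨a, x⟩) (j | ⟨b, y⟩) h
    · simp only [adj] at h ⊢; exact Ne.symm h
    · simp only [adj] at h ⊢; exact h
    · simp only [adj] at h ⊢; exact h
    · simp only [adj] at h ⊢
      rcases h with h | h | h | h | h | h | h
      · exact Or.inl ⟨h.1.symm, Ne.symm h.2⟩
      · exact Or.inr (Or.inr (Or.inl ⟨h.2, h.1⟩))
      · exact Or.inr (Or.inl ⟨h.2, h.1⟩)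
      · exact Or.inr (Or.inr (Or.inr (Or.inr (Or.inl ⟨h.2, h.1⟩))))
      · exact Or.inr (Or.inr (Or.inr (Or.inl ⟨h.2, h.1⟩)))
      · exact Or.inr (Or.inr (Or.inr (Or.inr (Or.inr (Or.inr ⟨h.2.1, h.1, h.2.2⟩)))))
      · exact Or.inr (Or.inr (Or.inr (Or.inr (Or.inr (Or.inl ⟨h.2.1, h.1, h.2.2⟩)))))⟩
  loopless := ⟨by
    rintro (i | ⟨a, x⟩) h
    · simp only [adj] at h; exact h rfl
    · simp only [adj] at h
      rcases h with h | h | h | h | h | h | h
      · exact h.2 rfl
      all_goals (have h1 := h.1; rw [h1] at h; simp at h)⟩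

theorem exG_adj (t m : ℕ) (v w : VV t m) : (exG t m).Adj v w ↔ adj t m v w := Iff.rfl

theorem card_nb (t m : ℕ) (ht : 2 ≤ t) (hm : m = 1 ∨ m = 2) (v : VV t m) :
    haveI : NeZero t := ⟨by omega⟩
    (Nb (exG t m) v).card = 2 * t + m - 1 := by
  have : NeZero t := ⟨by omega⟩
  have : Fact (1 < t) := ⟨by omega⟩
  have hR1 : ∀ x : ZMod t, (∑ y : ZMod t, if (y = x ∨ (m = 2 ∧ y = x + 1)) then 1 else 0) = m := by
    intro x
    rw [← Finset.card_filter]
    rcases hm with rfl | rfl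
    · simp [Finset.filter_eq']
    · have : (univ.filter (fun y : ZMod t => y = x ∨ (2 = 2 ∧ y = x + 1))) = {x, x + 1} := by
        ext y; simp
      rw [this, Finset.card_pair]
      intro h
      have : (1 : ZMod t) = 0 := by
        have := congrArg (fun z => z - x) h
        simpa using this.symm
      exact one_ne_zero this
  have hR2 : ∀ x : ZMod t, (∑ y : ZMod t, if (x = y ∨ (m = 2 ∧ x = y + 1)) then 1 else 0) = m := by
    intro x
    rw [← Finset.card_filter]
    rcases hm with rfl | rfl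
    · simp [Finset.filter_eq]
    · have : (univ.filter (fun y : ZMod t => x = y ∨ (2 = 2 ∧ x = y + 1))) = {x, x - 1} := by
        ext y
        simp only [Finset.mem_filter, Finset.mem_univ, true_and, Finset.mem_insert,
          Finset.mem_singleton]
        constructor
        · rintro (h | h)
          · exact Or.inl h.symm
          · right; rw [h]; ring
        · rintro (h | h)
          · exact Or.inl h.symm
          · right; rw [h]; ring
      rw [this, Finset.card_pair]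
      intro h
      have : (1 : ZMod t) = 0 := by
        have := congrArg (fun z => x - z) h
        simpa using this.symm
      exact one_ne_zero this
  have hne : ∀ x : ZMod t, (∑ y : ZMod t, if (x ≠ y) then 1 else 0) = t - 1 := by
    intro x
    rw [← Finset.card_filter]
    have : (univ.filter (fun y : ZMod t => x ≠ y)) = univ.erase x := by
      ext y; simp [eq_comm]
    rw [this, Finset.card_erase_of_mem (Finset.mem_univ _), Finset.card_univ, ZMod.card]
  have hne' : ∀ i : Fin m, (∑ j : Fin m, if (i ≠ j) then 1 else 0) = m - 1 := by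
    intro x
    rw [← Finset.card_filter]
    have : (univ.filter (fun y : Fin m => x ≠ y)) = univ.erase x := by
      ext y; simp [eq_comm]
    rw [this, Finset.card_erase_of_mem (Finset.mem_univ _), Finset.card_univ, Fintype.card_fin]
  unfold Nb
  rw [Finset.card_filter]
  simp only [exG_adj]
  rw [Fintype.sum_sum_type, Fintype.sum_prod_type, Fin.sum_univ_four]
  rcases v with i | ⟨c, x⟩
  · have e : (∑ x : Fin m, if adj t m (Sum.inl i) (Sum.inl x) then 1 else 0) = m - 1 := by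
      rw [← hne' i]
      exact Finset.sum_congr rfl (fun x _ => if_congr Iff.rfl rfl rfl)
    rw [e]
    simp only [adj]
    simp
    omega
  · have hc : c = 0 ∨ c = 1 ∨ c = 2 ∨ c = 3 := by
      fin_cases c <;> simp
    rcases hc with rfl | rfl | rfl | rfl
    · simp only [adj]
      have := hne x
      simp at this ⊢
      rw [this]; omega
    · simp only [adj]
      have := hne x
      have h2 := hR1 x
      simp at this h2 ⊢
      rw [this, h2]; omega
    · simp only [adj]
      have := hne x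
      have h2 := hR2 x
      simp at this h2 ⊢
      rw [this, h2]; omega
    · simp only [adj]
      have := hne x
      simp at this ⊢
      rw [this]; omega

theorem card_VV (t m : ℕ) [NeZero t] : Fintype.card (VV t m) = 4 * t + m := by
  simp [VV, Fintype.card_sum, Fintype.card_prod, ZMod.card]
  ring

theorem conn (t m : ℕ) (hm : 0 < m) : (exG t m).Connected := by
  have key : ∀ v : VV t m, (exG t m).Reachable (Sum.inl ⟨0, hm⟩) v := by
    rintro (i | ⟨c, x⟩)
    · by_cases h : (⟨0, hm⟩ : Fin m) = i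
      · rw [h]
      · exact SimpleGraph.Adj.reachable (by rw [exG_adj]; exact h)
    · have hc : c = 0 ∨ c = 1 ∨ c = 2 ∨ c = 3 := by
        fin_cases c <;> simp
      rcases hc with rfl | rfl | rfl | rfl
      · exact SimpleGraph.Adj.reachable (by rw [exG_adj]; simp [adj])
      · exact (SimpleGraph.Adj.reachable (v := Sum.inr (0, x)) (by rw [exG_adj]; simp [adj])).trans
          (SimpleGraph.Adj.reachable (by rw [exG_adj]; simp [adj]))
      · exact (SimpleGraph.Adj.reachable (v := Sum.inr (3, x)) (by rw [exG_adj]; simp [adj])).trans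
          (SimpleGraph.Adj.reachable (by rw [exG_adj]; simp [adj]))
      · exact SimpleGraph.Adj.reachable (by rw [exG_adj]; simp [adj])
  have : Nonempty (VV t m) := ⟨Sum.inl ⟨0, hm⟩⟩
  exact SimpleGraph.Connected.mk (fun v w => (key v).symm.trans (key w))

/-- colour of a neighbour `w` of `v` -/
def col (t m : ℕ) : VV t m → VV t m → Bool
  | Sum.inl _, Sum.inl _ => true
  | Sum.inl _, Sum.inr (c, _) => decide (c = 0)
  | Sum.inr _, Sum.inl _ => true
  | Sum.inr (a, _), Sum.inr (b, _) =>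
      if a = 0 then decide (b = 0) else if a = 3 then decide (b = 3) else
      if a = 1 then decide (b = 0 ∨ b = 1) else decide (b = 3 ∨ b = 2)

theorem col_adj (t m : ℕ) (v a b : VV t m) (ha : adj t m v a) (hb : adj t m v b) (hab : a ≠ b)
    (hc : col t m v a = col t m v b) : adj t m a b := by
  have h4 : ∀ c : Fin 4, c = 0 ∨ c = 1 ∨ c = 2 ∨ c = 3 := by
    intro c; fin_cases c <;> simp
  rcases v with i | ⟨c, x⟩ <;> rcases a with j | ⟨d, y⟩ <;> rcases b with l | ⟨e, z⟩
  · simp only [adj]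
    intro h; exact hab (by rw [h])
  · rcases h4 e with rfl | rfl | rfl | rfl <;> simp_all [adj, col]
  · rcases h4 d with rfl | rfl | rfl | rfl <;> simp_all [adj, col]
  · rcases h4 d with rfl | rfl | rfl | rfl <;> rcases h4 e with rfl | rfl | rfl | rfl <;>
      simp_all [adj, col]
  · rcases h4 c with rfl | rfl | rfl | rfl <;> simp_all [adj, col]
  · rcases h4 c with rfl | rfl | rfl | rfl <;> rcases h4 e with rfl | rfl | rfl | rfl <;>
      simp_all [adj, col]
  · rcases h4 c with rfl | rfl | rfl | rfl <;> rcases h4 d with rfl | rfl | rfl | rfl <;>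
      simp_all [adj, col]
  · rcases h4 c with rfl | rfl | rfl | rfl <;> rcases h4 d with rfl | rfl | rfl | rfl <;>
      rcases h4 e with rfl | rfl | rfl | rfl <;> simp_all [adj, col]

theorem clawfree_ex (t m : ℕ) : ClawFree (exG t m) := by
  intro v a b c ha hb hc hab hac hbc
  have h : col t m v a = col t m v b ∨ col t m v a = col t m v c ∨ col t m v b = col t m v c := by
    cases col t m v a <;> cases col t m v b <;> cases col t m v c <;> simp
  rcases h with h | h | h
  · exact Or.inl (col_adj t m v a b ha hb hab h)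
  · exact Or.inr (Or.inl (col_adj t m v a c ha hc hac h))
  · exact Or.inr (Or.inr (col_adj t m v b c hb hc hbc h))

/-- no single vertex can monitor everything: there is an obstruction set `D` -/
theorem obstruct (t m : ℕ) (s : VV t m) : ∃ D : Set (VV t m), D.Nonempty ∧ s ∉ D ∧
    (∀ w ∈ D, ¬ adj t m s w) ∧
    (∀ v, v ∉ D → (∀ w ∈ D, ¬ adj t m v w) ∨
      ∃ c : Fin 4, ∀ y : ZMod t, (Sum.inr (c, y) : VV t m) ∈ D ∧ adj t m v (Sum.inr (c, y))) := by
  have h4 : ∀ c : Fin 4, c = 0 ∨ c = 1 ∨ c = 2 ∨ c = 3 := by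
    intro c; fin_cases c <;> simp
  have hA : ∀ c : Fin 4, (c = 0 ∨ c = 3) →
      ∀ v : VV t m, v ∉ {w : VV t m | ∃ y, w = Sum.inr (c, y)} →
      (∀ w ∈ {w : VV t m | ∃ y, w = Sum.inr (c, y)}, ¬ adj t m v w) ∨
      ∃ c' : Fin 4, ∀ y : ZMod t, (Sum.inr (c', y) : VV t m) ∈
        {w : VV t m | ∃ y, w = Sum.inr (c, y)} ∧ adj t m v (Sum.inr (c', y)) := by
    intro c hc v hv
    rcases v with i | ⟨d, x⟩
    · right
      refine ⟨c, fun y => ⟨⟨y, rfl⟩, ?_⟩⟩
      simpa [adj] using hc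
    · rcases hc with rfl | rfl
      · rcases h4 d with rfl | rfl | rfl | rfl
        · exact absurd ⟨x, rfl⟩ hv
        · right; exact ⟨0, fun y => ⟨⟨y, rfl⟩, by simp [adj]⟩⟩
        · left; rintro w ⟨y, rfl⟩; simp [adj]
        · left; rintro w ⟨y, rfl⟩; simp [adj]
      · rcases h4 d with rfl | rfl | rfl | rfl
        · left; rintro w ⟨y, rfl⟩; simp [adj]
        · left; rintro w ⟨y, rfl⟩; simp [adj]
        · right; exact ⟨3, fun y => ⟨⟨y, rfl⟩, by simp [adj]⟩⟩
        · exact absurd ⟨x, rfl⟩ hv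
  rcases s with i | ⟨c, x⟩
  · refine ⟨{w | ∃ y, w = Sum.inr (1, y) ∨ w = Sum.inr (2, y)}, ⟨Sum.inr (1, 0), 0, Or.inl rfl⟩,
      ?_, ?_, ?_⟩
    · rintro ⟨y, h | h⟩ <;> simp at h
    · rintro w ⟨y, rfl | rfl⟩ <;> simp [adj]
    · rintro (j | ⟨d, z⟩) hv
      · left; rintro w ⟨y, rfl | rfl⟩ <;> simp [adj]
      · rcases h4 d with rfl | rfl | rfl | rfl
        · right; exact ⟨1, fun y => ⟨⟨y, Or.inl rfl⟩, by simp [adj]⟩⟩
        · exact absurd ⟨z, Or.inl rfl⟩ hv
        · exact absurd ⟨z, Or.inr rfl⟩ hv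
        · right; exact ⟨2, fun y => ⟨⟨y, Or.inr rfl⟩, by simp [adj]⟩⟩
  · rcases h4 c with rfl | rfl | rfl | rfl
    · refine ⟨{w | ∃ y, w = Sum.inr (3, y)}, ⟨Sum.inr (3, 0), 0, rfl⟩, ?_, ?_, hA 3 (Or.inr rfl)⟩
      · rintro ⟨y, h⟩; simp at h
      · rintro w ⟨y, rfl⟩; simp [adj]
    · refine ⟨{w | ∃ y, w = Sum.inr (3, y)}, ⟨Sum.inr (3, 0), 0, rfl⟩, ?_, ?_, hA 3 (Or.inr rfl)⟩
      · rintro ⟨y, h⟩; simp at h
      · rintro w ⟨y, rfl⟩; simp [adj]
    · refine ⟨{w | ∃ y, w = Sum.inr (0, y)}, ⟨Sum.inr (0, 0), 0, rfl⟩, ?_, ?_, hA 0 (Or.inl rfl)⟩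
      · rintro ⟨y, h⟩; simp at h
      · rintro w ⟨y, rfl⟩; simp [adj]
    · refine ⟨{w | ∃ y, w = Sum.inr (0, y)}, ⟨Sum.inr (0, 0), 0, rfl⟩, ?_, ?_, hA 0 (Or.inl rfl)⟩
      · rintro ⟨y, h⟩; simp at h
      · rintro w ⟨y, rfl⟩; simp [adj]

end Pool.Agent.T2h75.PD
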