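import Pool.Agent.T2h75.PD.Stm

/-! (ASM) assembly (helper54). -/

namespace Pool.Agent.T2h75.PD
open Classical Finset

namespace ASM

variable {V : Type} [Fintype V]

theorem mem_Nb (G : SimpleGraph V) (v w : V) : w ∈ Nb G v ↔ G.Adj v w := by
  unfold Nb
  rw [mem_filter]
  exact ⟨fun h => h.2, fun h => ⟨mem_univ _, h⟩⟩

theorem mem_NbC (G : SimpleGraph V) (v w : V) : w ∈ NbC G v ↔ w = v ∨ G.Adj v w := by
  unfold NbC
  rw [mem_insert, mem_Nb]

theorem NbC_card (G : SimpleGraph V) (r : ℕ) (hreg : ∀ v, (Nb G v).card = r) (v : V) :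
    (NbC G v).card = r + 1 := by
  unfold NbC
  rw [card_insert_of_notMem, hreg v]
  rw [mem_Nb]
  exact G.loopless.irrefl v

/-- a packing by closed neighbourhoods whose centers are in leaves -/
def Good (G : SimpleGraph V) (k r : ℕ) (T : Finset V) : Prop :=
  (∀ x ∈ T, ∀ y ∈ T, x ≠ y → Disjoint (NbC G x) (NbC G y)) ∧
  ∀ x ∈ T, ∃ L, Leaf G k r L ∧ x ∈ L

theorem exists_max (P : Finset V → Prop) (T : Finset V) (hT : P T) :
    ∃ S, P S ∧ ∀ S', P S' → S'.card ≤ S.card := by
  obtain ⟨S, hS, hm⟩ := Finset.exists_max_image (univ.filter P) Finset.card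
    ⟨T, mem_filter.2 ⟨mem_univ _, hT⟩⟩
  exact ⟨S, (mem_filter.1 hS).2, fun S' h => hm S' (mem_filter.2 ⟨mem_univ _, h⟩)⟩

end ASM

open ASM

theorem t_ASM (hCLO : S_CLO) (hLF0 : S_LF0) : S_ASM := by
  intro V _ G k r hr hreg hC
  obtain ⟨c1, c2, c3, c4⟩ := hCLO G k
  obtain ⟨T0, ⟨hT1, hT2⟩, hTm⟩ := exists_max (Good G k r) ∅
    ⟨fun x hx => absurd hx (notMem_empty x), fun x hx => absurd hx (notMem_empty x)⟩
  have hT0c : (T0.biUnion (NbC G)).card = (r + 1) * T0.card := by
    rw [card_biUnion (fun x hx y hy hxy => hT1 x hx y hy hxy),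
      sum_congr rfl (fun x _ => NbC_card G r hreg x), sum_const, smul_eq_mul, mul_comm]
  obtain ⟨S, ⟨hS1, hS2⟩, hSm⟩ := exists_max
    (fun S => T0 ⊆ S ∧ (r + 1) * S.card ≤ (cl G k (S.biUnion (NbC G))).card) T0
    ⟨Subset.refl _, by rw [← hT0c]; exact card_le_card (c1 _)⟩
  refine ⟨S, ?_, ?_⟩
  swap
  · exact hS2.trans (card_le_univ _)
  set M := cl G k (S.biUnion (NbC G)) with hM
  have hMc : Closed G k M := c2 _
  have hNM : ∀ x ∈ S, NbC G x ⊆ M := fun x hx =>
    (subset_biUnion_of_mem (NbC G) hx).trans (c1 _)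
  by_contra hne
  have hgain : ∀ x, (cl G k (M ∪ NbC G x) \ M).card ≤ r := by
    intro x
    by_contra hcon
    push Not at hcon
    have hxS : x ∉ S := by
      intro hx
      have h1 : M ∪ NbC G x = M := union_eq_left.2 (hNM x hx)
      have h2 : cl G k (M ∪ NbC G x) ⊆ M := by
        rw [h1]
        exact c3 M M hMc (Subset.refl _)
      rw [sdiff_eq_empty_iff_subset.2 h2, card_empty] at hcon
      omega
    have hins : cl G k (M ∪ NbC G x) ⊆ cl G k ((insert x S).biUnion (NbC G)) := by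
      apply c3 _ _ (c2 _)
      apply union_subset
      · apply c3 _ _ (c2 _)
        exact (biUnion_subset_biUnion_of_subset_left (NbC G) (subset_insert x S)).trans (c1 _)
      · exact (subset_biUnion_of_mem (NbC G) (mem_insert_self x S)).trans (c1 _)
    have hMs : M ⊆ cl G k (M ∪ NbC G x) := subset_union_left.trans (c1 _)
    have h3 := card_sdiff_add_card_eq_card hMs
    have h4 := card_le_card hins
    have h5 : (insert x S).card = S.card + 1 := card_insert_of_notMem hxS
    have h6 := hSm (insert x S) ⟨hS1.trans (subset_insert x S), by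
      rw [h5, mul_add, mul_one]
      omega⟩
    omega
  obtain ⟨L, hL, hLM⟩ := hC M hMc (c4 S) hne hgain
  obtain ⟨x, hxL⟩ := hL.1
  have hxM : x ∉ M := fun h => (disjoint_left.1 hLM) hxL h
  have hTM : ∀ x' ∈ T0, NbC G x' ⊆ M := fun x' hx' => hNM x' (hS1 hx')
  have hdis : ∀ x' ∈ T0, Disjoint (NbC G x) (NbC G x') := by
    intro x' hx'
    obtain ⟨L', hL', hxL'⟩ := hT2 x' hx'
    have hL'M := hLF0 G k r hr hreg L' hL' x' hxL' M hMc (hTM x' hx')
    rw [disjoint_left]
    intro z hz hz'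
    have hzM : z ∈ M := hTM x' hx' hz'
    have hzL : z ∉ L := fun h => (disjoint_left.1 hLM) h hzM
    have hxz : G.Adj x z := by
      rcases (mem_NbC G x z).1 hz with h | h
      · exact absurd (h ▸ hxL) hzL
      · exact h
    have hzL' : z ∉ L' := by
      intro h
      exact hxM ((hL'M z h).2 ((mem_Nb G z x).2 hxz.symm))
    have hxz' : G.Adj x' z := by
      rcases (mem_NbC G x' z).1 hz' with h | h
      · exact absurd (h ▸ hxL') hzL'
      · exact h
    have k1 := hL.2.2.1 z hzL ⟨x, hxL, hxz.symm⟩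
    have k2 := hL'.2.2.1 z hzL' ⟨x', hxL', hxz'.symm⟩
    have hLL' : Disjoint (Nb G z ∩ L) (Nb G z ∩ L') := by
      rw [disjoint_left]
      intro w hw hw'
      exact (disjoint_left.1 hLM) (mem_inter.1 hw).2 ((hL'M w (mem_inter.1 hw').2).1)
    have k3 : ((Nb G z ∩ L) ∪ (Nb G z ∩ L')).card ≤ r := by
      rw [← hreg z]
      exact card_le_card (union_subset inter_subset_left inter_subset_left)
    rw [card_union_of_disjoint hLL'] at k3
    omega
  have hxT : x ∉ T0 := fun h => hxM (hTM x h ((mem_NbC G x x).2 (Or.inl rfl)))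
  have hbig := hTm (insert x T0) ⟨by
    intro a ha b hb hab
    rcases mem_insert.1 ha with ha1 | ha1
    · rcases mem_insert.1 hb with hb1 | hb1
      · exact absurd (ha1.trans hb1.symm) hab
      · rw [ha1]
        exact hdis b hb1
    · rcases mem_insert.1 hb with hb1 | hb1
      · rw [hb1]
        exact (hdis a ha1).symm
      · exact hT1 a ha1 b hb1 hab, by
    intro a ha
    rcases mem_insert.1 ha with rfl | ha
    · exact ⟨L, hL, hxL⟩
    · exact hT2 a ha⟩
  rw [card_insert_of_notMem hxT] at hbig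
  omega

end Pool.Agent.T2h75.PD
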