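import Pool.Agent.T2h75.PD.Stm

/-!
# Project PD, task CLO
-/

namespace Pool.Agent.T2h75.PD
open Classical Finset

theorem clo42_Nb {V : Type} [Fintype V] (G : SimpleGraph V) (v w : V) :
    w ∈ Nb G v ↔ G.Adj v w := by
  simp [Nb]

theorem clo42_cl {V : Type} [Fintype V] (G : SimpleGraph V) (k : ℕ) (X : Finset V) (v : V) :
    v ∈ cl G k X ↔ ∀ M, Closed G k M → X ⊆ M → v ∈ M := by
  simp [cl]

theorem t_CLO : S_CLO := by
  intro V _ G k
  have h1 : ∀ X, X ⊆ cl G k X := by
    intro X v hv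
    rw [clo42_cl]
    intro M _ hXM
    exact hXM hv
  have h3 : ∀ X M, Closed G k M → X ⊆ M → cl G k X ⊆ M := by
    intro X M hM hXM v hv
    rw [clo42_cl] at hv
    exact hv M hM hXM
  have h2 : ∀ X, Closed G k (cl G k X) := by
    intro X v hv hk w hw
    rw [clo42_cl]
    intro M hM hXM
    have h4 := h3 X M hM hXM
    apply hM v (h4 hv) _ hw
    exact (card_le_card (sdiff_subset_sdiff (Subset.refl _) h4)).trans hk
  refine ⟨h1, h2, h3, ?_⟩
  intro S
  set M := cl G k (S.biUnion (NbC G)) with hM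
  have hsub : S.biUnion (NbC G) ⊆ M := h1 _
  have hcl : Closed G k M := h2 _
  let M' : Finset V := M.filter (fun v => ∃ w ∈ M, (w = v ∨ G.Adj v w) ∧ Nb G w ⊆ M)
  have hM'M : M' ⊆ M := filter_subset _ _
  have h4 : M ⊆ M' := by
    apply h3 _ M'
    · intro v hv hk w hw
      have hNv : Nb G v ⊆ M := by
        apply hcl v (hM'M hv)
        exact (card_le_card (sdiff_subset_sdiff (Subset.refl _) hM'M)).trans hk
      refine mem_filter.2 ⟨hNv hw, v, hM'M hv, Or.inr ((clo42_Nb G v w).1 hw).symm, hNv⟩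
    · intro v hv
      refine mem_filter.2 ⟨hsub hv, ?_⟩
      obtain ⟨s, hs, hvs⟩ := mem_biUnion.1 hv
      have hsM : NbC G s ⊆ M := (subset_biUnion_of_mem (NbC G) hs).trans hsub
      refine ⟨s, hsM (mem_insert_self _ _), ?_, (subset_insert _ _).trans hsM⟩
      rcases mem_insert.1 hvs with h | h
      · exact Or.inl h.symm
      · exact Or.inr ((clo42_Nb G s v).1 h).symm
  intro v hv
  exact (mem_filter.1 (h4 hv)).2

end Pool.Agent.T2h75.PD
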