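import Mathlib

/-!
# Project PD (MP_19e396_co): k-power domination in claw-free regular graphs

THEOREM.  For all `k ≥ 1`, `r ≤ 2k+1`, every finite claw-free `r`-regular graph on `n` vertices has
a `k`-power dominating set `S` with `(r+1)|S| ≤ n`.  Statements for the board `t75_tasks`
(project PD); each with a complete proof in its docstring.  `open Classical` EVERYWHERE.
-/

namespace Pool.Agent.T2h75.PD
open Classical Finset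

/-- open neighbourhood -/
noncomputable def Nb {V : Type} [Fintype V] (G : SimpleGraph V) (v : V) : Finset V :=
  Finset.univ.filter (fun w => G.Adj v w)

/-- closed neighbourhood -/
noncomputable def NbC {V : Type} [Fintype V] (G : SimpleGraph V) (v : V) : Finset V :=
  insert v (Nb G v)

def ClawFree {V : Type} (G : SimpleGraph V) : Prop :=
  ∀ v a b c, G.Adj v a → G.Adj v b → G.Adj v c → a ≠ b → a ≠ c → b ≠ c →
    G.Adj a b ∨ G.Adj a c ∨ G.Adj b c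

/-- `A` is a clique -/
def Clq {V : Type} (G : SimpleGraph V) (A : Finset V) : Prop :=
  ∀ a ∈ A, ∀ b ∈ A, a ≠ b → G.Adj a b

/-- closed under the propagation rule -/
def Closed {V : Type} [Fintype V] (G : SimpleGraph V) (k : ℕ) (M : Finset V) : Prop :=
  ∀ v ∈ M, (Nb G v \ M).card ≤ k → Nb G v ⊆ M

/-- closure -/
noncomputable def cl {V : Type} [Fintype V] (G : SimpleGraph V) (k : ℕ) (X : Finset V) :
    Finset V :=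
  Finset.univ.filter (fun v => ∀ M, Closed G k M → X ⊆ M → v ∈ M)

def Leaf {V : Type} [Fintype V] (G : SimpleGraph V) (k r : ℕ) (L : Finset V) : Prop :=
  L.Nonempty ∧ L.card ≤ r ∧
  (∀ v, v ∉ L → (∃ y ∈ L, G.Adj v y) → k + 1 ≤ (Nb G v ∩ L).card) ∧
  (∀ y ∈ L, ∃ u, u ∉ L ∧ G.Adj u y ∧ Clq G (Nb G u ∩ L))

def Covered {V : Type} [Fintype V] (G : SimpleGraph V) (M : Finset V) : Prop :=
  ∀ v ∈ M, ∃ w ∈ M, (w = v ∨ G.Adj v w) ∧ Nb G w ⊆ M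

/-- local structure around a class `F` (outside `M`), with `U` = neighbours inside `M`,
`P` = the other neighbours outside `M` -/
structure Loc {V : Type} [Fintype V] (G : SimpleGraph V) (K r : ℕ) (F P U : Finset V) :
    Prop where
  hFP : Disjoint F P
  hFU : Disjoint F U
  hPU : Disjoint P U
  card : F.card + P.card ≤ r
  nb : ∀ f ∈ F, Nb G f ⊆ U ∪ F ∪ P
  hU : ∀ f ∈ F, ∃ u ∈ U, G.Adj u f
  Bclq : ∀ u ∈ U, Clq G (Nb G u ∩ F)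
  Bcard : ∀ u ∈ U, K ≤ (Nb G u ∩ F).card
  A5 : ∀ c ∈ P, Clq G (Nb G c ∩ F)
  A4 : ∀ f ∈ F, ∀ c ∈ P, G.Adj f c → Clq G ((Nb G f ∩ U) ∪ ((Nb G f ∩ F) \ Nb G c))
  A6 : ∀ c ∈ P, ∀ u ∈ U, K ≤ ((Nb G u ∩ F) \ Nb G c).card

/-- TASK CLO (40 lines): closure facts.
`cl` : filter; (1) X ⊆ cl X trivial; (2) cl X closed: v∈cl X, |N v \ cl X| ≤ k; for every closed
M ⊇ X: cl X ⊆ M, so N v \ M ⊆ N v \ cl X has ≤ k elements, so N v ⊆ M.  (3) minimality trivial.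
(4) cl of a union of closed nbhds is covered: M := cl(...), M' := {v∈M | ∃ w∈M, (w=v ∨ v~w) ∧ N w ⊆ M}
contains every N[s], s∈S (w = s; N[s] ⊆ M) and is closed: v∈M', |N v \ M'| ≤ k ⇒ |N v \ M| ≤ k ⇒ N v ⊆ M,
and then every w'∈N v is in M and covered by v.  So M ⊆ M'. -/
def S_CLO : Prop := ∀ {V : Type} [Fintype V] (G : SimpleGraph V) (k : ℕ),
  (∀ X, X ⊆ cl G k X) ∧ (∀ X, Closed G k (cl G k X)) ∧
  (∀ X M, Closed G k M → X ⊆ M → cl G k X ⊆ M) ∧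
  (∀ S : Finset V, Covered G (cl G k (S.biUnion (NbC G))))

/-- TASK LF0 (50 lines): a leaf is completely monitored from each of its vertices.
Proof.  K = k+1, r ≤ 2K-1.  (full) if q∈M and |N(q)∩M| ≥ K then |N q \ M| ≤ r-K ≤ k so N q ⊆ M.
Let u0∉L, u0~x, Q = N(u0)∩L a clique containing x, |Q| ≥ K (third property of Leaf).
Q ⊆ N[x] ⊆ M, u0∈N x ⊆ M.  Each q∈Q: q∈M, (Q\{q}) ∪ {u0} ⊆ N q ∩ M has ≥ K elements, so N q ⊆ M.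
For y∈L take u_y and Q_y = N(u_y)∩L ∋ y, a clique, |Q_y| ≥ K; |Q ∪ Q_y| ≤ |L| ≤ r < 2K so there is
q∈Q∩Q_y; N q ⊆ M gives u_y∈M, Q_y ⊆ M (q∈M too), so y∈M and (Q_y\{y})∪{u_y} ⊆ N y ∩ M: N y ⊆ M. -/
def S_LF0 : Prop := ∀ {V : Type} [Fintype V] (G : SimpleGraph V) (k r : ℕ), r ≤ 2 * k + 1 →
  (∀ v, (Nb G v).card = r) → ∀ L, Leaf G k r L → ∀ x ∈ L, ∀ M, Closed G k M → NbC G x ⊆ M →
  ∀ y ∈ L, y ∈ M ∧ Nb G y ⊆ M

/-- the claim of the paper proof -/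
def Claim {V : Type} [Fintype V] (G : SimpleGraph V) (k r : ℕ) : Prop :=
  ∀ M : Finset V, Closed G k M → Covered G M → M ≠ univ →
    (∀ x, (cl G k (M ∪ NbC G x) \ M).card ≤ r) → ∃ L, Leaf G k r L ∧ Disjoint L M

/-- TASK ASM (90 lines): assembly.
Proof.  S0 := a set T of maximal cardinality with (i) closed nbhds of distinct elements of T are
disjoint, (ii) every x∈T lies in some leaf.  Then |N[S0]| = (r+1)|S0|.
Let S be of maximal cardinality among the sets with S0 ⊆ S and (r+1)|S| ≤ |cl(N[S])|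
(S0 is one).  M := cl(N[S]) is closed and covered (S_CLO).  If M = univ: done.
Otherwise all gains are ≤ r: if |cl(M ∪ N[x]) \ M| ≥ r+1 then x∉S (else N[x] ⊆ M and the gain is 0)
and cl(N[S∪{x}]) ⊇ cl(M ∪ N[x]) has ≥ |M|+r+1 ≥ (r+1)(|S|+1) elements, contradiction.
By Claim there is a leaf L disjoint from M.  Take x∈L.  For x'∈S0, x'∈L' leaf: N[x'] ⊆ M, so by
S_LF0: L' ⊆ M and N(y) ⊆ M for y∈L'.  Suppose z∈N[x]∩N[x'].  Then z∈M so z∉L, z≠x, z~x.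
z∉L' (else N(z) ⊆ M contains x∈L).  So z≠x' and z~x'.  So z has ≥ k+1 nbrs in L and ≥ k+1 in L'
(L, L' disjoint as L' ⊆ M): degree ≥ 2k+2 > r.  Contradiction.  So S0∪{x} satisfies (i),(ii)
and is bigger (x∉S0 since S0 ⊆ M): contradiction. -/
def S_ASM : Prop := ∀ {V : Type} [Fintype V] (G : SimpleGraph V) (k r : ℕ), r ≤ 2 * k + 1 →
  (∀ v, (Nb G v).card = r) → Claim G k r →
  ∃ S : Finset V, cl G k (S.biUnion (NbC G)) = univ ∧ (r + 1) * S.card ≤ Fintype.card V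

/-- TASK LOC (120 lines): the local structure of a class.  (You may assume S_CLO.)
Write K = k+1, D = V \ M, M_x = cl(M ∪ N[x]), F = {y∉M | M_y = M_x}, U = {u∈M | u has a nbr in F},
P = {c∉M, c∉F, c has a nbr in F}.  (full): if M' closed, q∈M', |N q ∩ M'| ≥ K then N q ⊆ M'.
(A0) every y∈D has a nbr in M (else N[y] ∩ M = ∅, gain ≥ r+1).
(A1) v∈M with an outside nbr: B_v = N v \ M is a clique, |B_v| ≥ K.  (closedness; w covering v is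
≠ v, w~v, w not adjacent to B_v; claw-free.)
(A2) y,z∈B_v ⇒ M_z ⊆ M_y: B_v ⊆ N[y] ⊆ M_y, z has nbrs B_v\{z} and v in M_y, so is full. Hence
M_y = M_z by symmetry; so for f∈F and u∈M, u~f: B_u = N u \ M ⊆ F, so N u ∩ F = N u \ M;  |F| ≥ K,
and the same for every class.
(A2') y∈D, M_y ⊆ M_z (z∈D) ⇒ M_y = M_z: otherwise the classes of y and z are disjoint subsets of
M_z \ M with ≥ K elements each: 2K ≤ r.
F ⊆ M_x\M, and N y ⊆ M_x for y∈F, so P ⊆ M_x\M and |F|+|P| ≤ r.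
(A5) c∈P: c is not full in M_x (else M_c ⊆ M_x, c∈F by A2'), so there is d∈N c \ M_x, nonadjacent
to F; claw-free at c with a,b∈N c∩F and d: N c ∩ F is a clique.
(A4) f∈F, c∈P, f~c; a,b ∈ (N f∩U) ∪ ((N f∩F)\N c), both not adjacent to c (a∈U: N a\M ⊆ F), so
claw-free at f gives a~b.
(A6) c∈P, u∈U, suppose |B_u\N c| ≤ k.  In M_c: u∈M_c, N u \ M_c ⊆ B_u\N c so N u ⊆ M_c; f∈B_u has
nbrs B_u\{f} and u in M_c: full; so M_f ⊆ M_c and M_f = M_c by A2', so c∈F: contradiction. -/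
def S_LOC : Prop := ∀ {V : Type} [Fintype V] (G : SimpleGraph V) (k r : ℕ), r ≤ 2 * k + 1 →
  (∀ v, (Nb G v).card = r) → ClawFree G → ∀ M : Finset V, Closed G k M → Covered G M →
  (∀ x, (cl G k (M ∪ NbC G x) \ M).card ≤ r) → ∀ x, x ∉ M →
  k + 1 ≤ (univ.filter (fun y => y ∉ M ∧ cl G k (M ∪ NbC G y) = cl G k (M ∪ NbC G x))).card ∧
  Loc G (k + 1) r (univ.filter (fun y => y ∉ M ∧ cl G k (M ∪ NbC G y) = cl G k (M ∪ NbC G x)))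
    (univ.filter (fun c => c ∉ M ∧ cl G k (M ∪ NbC G c) ≠ cl G k (M ∪ NbC G x) ∧
      ∃ y, y ∉ M ∧ cl G k (M ∪ NbC G y) = cl G k (M ∪ NbC G x) ∧ G.Adj c y))
    (univ.filter (fun u => u ∈ M ∧
      ∃ y, y ∉ M ∧ cl G k (M ∪ NbC G y) = cl G k (M ∪ NbC G x) ∧ G.Adj u y))

/-- TASK CNT (50 lines): abstract counting.  `g` = class function (g y = cl(M ∪ N[y])), D = V\M.
If every class has ≥ K elements and |class| + |P(class)| ≤ r ≤ 2K-1 then some class has an element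
with no neighbour in its P.  Proof: otherwise choose φ : D → D, φ(y)~y, g(φ y) ≠ g y.
Σ_{i∈g(D)} |{y∈D | g y = i}| = |D| = Σ_{i∈g(D)} |{y∈D | g (φ y) = i}|, so for some i = g x:
K ≤ |{y∈D | g y = i}| ≤ |{y∈D | g (φ y) = i}| ≤ |P(i)| (such y has g y ≠ i and the nbr φ y in the
class), so 2K ≤ r. -/
def S_CNT : Prop := ∀ {V T : Type} [Fintype V] (G : SimpleGraph V) (K r : ℕ), r + 1 ≤ 2 * K →
  ∀ (M : Finset V) (g : V → T), M ≠ univ →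
  (∀ x, x ∉ M → K ≤ (univ.filter (fun y => y ∉ M ∧ g y = g x)).card) →
  (∀ x, x ∉ M → (univ.filter (fun y => y ∉ M ∧ g y = g x)).card +
    (univ.filter (fun c => c ∉ M ∧ g c ≠ g x ∧ ∃ y, y ∉ M ∧ g y = g x ∧ G.Adj c y)).card ≤ r) →
  ∃ x, x ∉ M ∧ ∀ c, c ∉ M → g c ≠ g x → ¬ G.Adj x c

/-- the configuration of a minimal counterexample to the main lemma -/
structure Conf {V : Type} [Fintype V] (G : SimpleGraph V) (K r : ℕ) (F P U P' : Finset V)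
    (b0 u c c' f f' : V) : Prop where
  loc : Loc G K r F P U
  reg : ∀ v, (Nb G v).card = r
  hr : r + 1 ≤ 2 * K
  b0F : b0 ∈ F
  b0P : ∀ c ∈ P, ¬ G.Adj b0 c
  P'P : P' ⊆ P
  uU : u ∈ U
  cP' : c ∈ P'
  c'P' : c' ∈ P'
  cc' : c ≠ c'
  fB : f ∈ Nb G u ∩ F
  f'B : f' ∈ Nb G u ∩ F
  fc : G.Adj f c
  f'c' : G.Adj f' c'
  fpriv : ∀ d ∈ P', d ≠ c → ¬ G.Adj f d
  f'priv : ∀ d ∈ P', d ≠ c' → ¬ G.Adj f' d
  hX : ((Nb G u ∩ F).filter (fun b => ∀ d ∈ P', ¬ G.Adj b d)).card + 1 ≤ K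

/-- TASK MIN (60 lines): the main lemma from the impossibility of `Conf`.
Proof.  Suppose not; take P' ⊆ P of minimal cardinality such that for some u∈U the set
X' = {b∈N u∩F | b has no nbr in P'} has < K elements.  P' ≠ ∅ (Bcard), |P'| ≠ 1 (A6), and for each
c∈P' minimality applied to P'\{c} gives f_c∈N u∩F with no nbr in P'\{c} and f_c∉X', so f_c~c.
Take c≠c' in P' (|P'| ≥ 2), name them such that p_f ≤ p_f' (p_f = |N f∩P|). -/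
def S_MIN : Prop := (∀ {V : Type} [Fintype V] (G : SimpleGraph V) (K r : ℕ) (F P U P' : Finset V)
    (b0 u c c' f f' : V), Conf G K r F P U P' b0 u c c' f f' →
    (Nb G f ∩ P).card ≤ (Nb G f' ∩ P).card → False) →
  ∀ {V : Type} [Fintype V] (G : SimpleGraph V) (K r : ℕ), r + 1 ≤ 2 * K →
  (∀ v, (Nb G v).card = r) → ∀ (F P U : Finset V), Loc G K r F P U → ∀ b0 ∈ F,
  (∀ c ∈ P, ¬ G.Adj b0 c) → ∀ P' ⊆ P, ∀ u ∈ U,
  K ≤ ((Nb G u ∩ F).filter (fun b => ∀ d ∈ P', ¬ G.Adj b d)).card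

/-- facts (B) in the configuration; B = N u∩F, X' = {b∈B | no nbr in P'}, U0 = N f∩U -/
structure Facts {V : Type} [Fintype V] (G : SimpleGraph V) (F P U P' : Finset V)
    (u c c' f f' : V) : Prop where
  U0 : Nb G f ∩ U = Nb G f' ∩ U
  U0b : ∀ b ∈ Nb G u ∩ F, (∀ d ∈ P', ¬ G.Adj b d) → Nb G f ∩ U ⊆ Nb G b ∩ U
  B3 : ∀ g ∈ F, ∀ d ∈ P', G.Adj g d → (G.Adj g f ∧ d ≠ c ∨ G.Adj g f' ∧ d ≠ c') →
    Nb G g ∩ U ⊆ Nb G f ∩ U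
  B3' : ∀ w ∈ U, ¬ G.Adj f w → ∀ b ∈ Nb G w ∩ F, G.Adj u b → ∀ d ∈ P', ¬ G.Adj b d
  B4 : ∀ y ∈ F, ¬ G.Adj u y → (G.Adj y f ↔ G.Adj y c)
  B4' : ∀ y ∈ F, ¬ G.Adj u y → (G.Adj y f' ↔ G.Adj y c')
  B4U : ∀ y ∈ F, ¬ G.Adj u y → ¬ G.Adj y c → ∀ w ∈ U, G.Adj y w → ¬ G.Adj f w
  B4U' : ∀ y ∈ F, ¬ G.Adj u y → ¬ G.Adj y c' → ∀ w ∈ U, G.Adj y w → ¬ G.Adj f w

/-- TASK FCT (80 lines).
U0: f'∈(N f∩F)\N c (B is a clique, f'≁c since c≠c'), so by A4 (f,c): (N f∩U)∪{f'} clique.  Symmetric.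
U0b: b∈(N f∩F)\N c (b≠f since f~c), A4 (f,c): each w∈N f∩U is adjacent to b.
B3: f_j∈(N g∩F)\N d (f_j≁d by privacy), A4 (g,d): every w∈N g∩U is adjacent to f_j; use U0.
B3': if b~d∈P': b≠f (w≁f), b≠f' (U0), so b~f and b~f' (B clique), and d≠c or d≠c': by B3
N b∩U ⊆ N f∩U contains w: contradiction.
B4: y~f, y≁c ⇒ y∈(N f∩F)\N c, u∈N f∩U, A4 (f,c): u~y, contradiction.  y~c: y,f∈N c∩F clique (A5), y≠f.
B4': the same.  B4U: if w~f then y,f∈N w∩F clique, y≠f so y~f so y~c.  B4U': with f', U0. -/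
def S_FCT : Prop := ∀ {V : Type} [Fintype V] (G : SimpleGraph V) (K r : ℕ) (F P U P' : Finset V)
    (b0 u c c' f f' : V), Conf G K r F P U P' b0 u c c' f f' → Facts G F P U P' u c c' f f'

/-- TASK W0 (60 lines): there is w∈U with w≁f.
Proof.  Suppose every w∈U is adjacent to f.  For y∈F, y≁u: take w∈U, w~y (hU); by B4U y~c, by B4
y~f.  For y∈F, y~u, y≠f: y~f (Bclq).  So F\{f} ⊆ N f and r = |N f| = |U|+|F|-1+|N f∩P| ≥ |U|+|F|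
(c∈N f∩P).  b0 has no nbr in P so N b0 ⊆ U ∪ F\{b0}: r ≤ |U|+|F|-1.  Contradiction. -/
def S_W0 : Prop := ∀ {V : Type} [Fintype V] (G : SimpleGraph V) (K r : ℕ) (F P U P' : Finset V)
    (b0 u c c' f f' : V), Conf G K r F P U P' b0 u c c' f f' → Facts G F P U P' u c c' f f' →
    ∃ w ∈ U, ¬ G.Adj f w

/-- TASK DEG (60 lines): for b∈X': |W_b| + s_b + p_b = m_b + p_f, where W_b = N b∩U minus N f,
s_b = number of y∈F, y≁u, y≁c, y~b;  m_b = number of y∈F, y≁u, y~c, y≁b.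
Proof: B = N u∩F is a clique containing b, f.  N f∩F = B\{f} ∪ {y∈F | y≁u, y~c} (B4) so
r = |N f∩U|+|B|-1+|N_c|+p_f, N_c = {y∈F | y≁u, y~c}.
N b∩U = (N f∩U) ⊔ W_b (U0b), N b∩F = B\{b} ⊔ {y∈N_c | y~b} ⊔ {y∈F| y≁u, y≁c, y~b}. -/
def S_DEG : Prop := ∀ {V : Type} [Fintype V] (G : SimpleGraph V) (K r : ℕ) (F P U P' : Finset V)
    (b0 u c c' f f' : V), Conf G K r F P U P' b0 u c c' f f' → Facts G F P U P' u c c' f f' →
    ∀ b ∈ Nb G u ∩ F, (∀ d ∈ P', ¬ G.Adj b d) →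
    (U.filter (fun w => G.Adj b w ∧ ¬ G.Adj f w)).card +
    (F.filter (fun y => ¬ G.Adj u y ∧ ¬ G.Adj y c ∧ G.Adj y b)).card + (Nb G b ∩ P).card =
    (F.filter (fun y => ¬ G.Adj u y ∧ G.Adj y c ∧ ¬ G.Adj y b)).card + (Nb G f ∩ P).card

/-- TASK NON (120 lines): N¹ = {y∈F | y≁u, y~c, y≁c'} is empty.  (S_DEG is a hypothesis.)
Proof.  B = N u∩F, X' = {b∈B | no nbr in P'}, n = |N c∩F|, for y∈N¹: Z_y = (N y∩F)\N c,
h_y = |F|-n-|Z_y| ≥ 0 (as Z_y ⊆ F\N c).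
(a) y∈F, y≁u, y~c, y~c' ⇒ y~b for all b∈X': y~f' (B4'), by B3 (d = c ≠ c') N y∩U ⊆ N f∩U; take
w∈U, w~y (hU); w∈N f∩U ⊆ N b∩U (U0b), so y,b∈N w∩F clique.
So m_b = |{y∈F | y≁u, y~c, y≁b}| = |{y∈N¹ | y≁b}|.
(b) y∈N¹, w∈U, w~y: w≁f (B4U'); Z_y = (N w∩F)\N c (⊆: A4 (y,c) clique; ⊇: N w∩F clique ∋ y~c).
So |Z_y| ≥ K (A6), Z_y clique; Z_y∩B ⊆ X' (B3').
(c) |N y∩U| = r+1-n-|Z_y|-p_y, since N y∩F = Z_y ⊔ (N c∩F)\{y} (A5), so with |F|+|P| ≤ r and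
p_y + p_f' ≤ |P| (no common nbr d∈P of y and f': else y~f' by A5, y~c' by B4'):
|N y∩U| ≥ 1+h_y+p_f' ≥ 1+h_y+p_f.
(d) b∈X'∩Z_y: N y∩U ⊆ W_b (w∈N y∩U: b∈Z_y ⊆ N w; w≁f), s_b ≥ |Z_y\B| ≥ 1 (Z_y\B ⊆ {y'∈F | y'≁u,
y'≁c, y'~b}; |Z_y| ≥ K > |X'| ≥ |Z_y∩B|), so by S_DEG m_b ≥ 2+h_y.
(e) Take y∈N¹ with h_y maximal, h.  |X'∩Z_y|(2+h) ≤ Σ_{b∈X'∩Z_y} m_b = Σ_{y'∈N¹} |{b∈X'∩Z_y | b≁y'}|
≤ |N¹| h (b∈F\N c, b≁y' ⇒ b∈(F\N c)\Z_{y'}).  But |X'∩Z_y| = |B∩Z_y| ≥ |B\N c|+|Z_y|-(|F|-n) ≥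
2K-|F|+n ≥ n+1 (A6 for u), |N¹| ≤ n.  Contradiction. -/
def S_NON : Prop := ∀ {V : Type} [Fintype V] (G : SimpleGraph V) (K r : ℕ) (F P U P' : Finset V)
    (b0 u c c' f f' : V), Conf G K r F P U P' b0 u c c' f f' → Facts G F P U P' u c c' f f' →
    (Nb G f ∩ P).card ≤ (Nb G f' ∩ P).card →
    (∀ b ∈ Nb G u ∩ F, (∀ d ∈ P', ¬ G.Adj b d) →
    (U.filter (fun w => G.Adj b w ∧ ¬ G.Adj f w)).card +
    (F.filter (fun y => ¬ G.Adj u y ∧ ¬ G.Adj y c ∧ G.Adj y b)).card + (Nb G b ∩ P).card =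
    (F.filter (fun y => ¬ G.Adj u y ∧ G.Adj y c ∧ ¬ G.Adj y b)).card + (Nb G f ∩ P).card) →
    ∀ y ∈ F, ¬ G.Adj u y → G.Adj y c → G.Adj y c'

/-- TASK FIN (120 lines): final contradiction.  W = {w∈U | w≁f} ≠ ∅, B = N u∩F,
X' = {b∈B | no nbr in P'}, |X'| ≤ K-1, p = p_f = |N f∩P|.
(a) as in NON (a): y∈F, y≁u, y~c (so y~c') ⇒ y~f', N y∩U ⊆ N f∩U and y~b for all b∈X'; so by S_DEG
|W_b|+s_b+p_b = p for b∈X'.
(b) w∈W: X_w = N w∩F∩N u ⊆ X' (B3'), the rest Q_w = {y∈N w∩F | y≁u}, every y∈Q_w has y≁c (else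
w∈N y∩U ⊆ N f∩U).  |X_w|+q_w = |N w∩F| ≥ K, X_w ≠ ∅ since |N w∩F|+|B| ≥ 2K > |F|; q_w ≥ 1.
(c) y∈Q_w: y≁f (B4), |N y∩F| ≤ |F|-2, p_y ≤ |P|-p (a common nbr d∈P of y, f gives y~f by A5), so
|N y∩U| ≥ 2+p; N y∩U ⊆ W (B4U): |W| ≥ p+2.
(d) b∈X_w: Q_w ⊆ {y∈F | y≁u, y≁c, y~b} (N w∩F clique): s_b ≥ q_w, |W_b| ≤ p-q_w, w∈W_b, so q_w < p.
(e) Σ_{b∈X'} Σ_{w∈W_b} 1/(p-q_w) ≤ |X'| ≤ K-1 (inner terms ≤ 1/|W_b|).  It equals
Σ_{w∈W} |X_w|/(p-q_w) ≥ Σ_w (K-q_w)/(p-q_w) ≥ |W| K/p ≥ (p+2)K/p > K (K ≥ p: p ≤ |P| ≤ r-|F| ≤ K-1,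
K(q_w) ≥ p q_w; |F| ≥ |B| ≥ K).  Contradiction. -/
def S_FIN : Prop := ∀ {V : Type} [Fintype V] (G : SimpleGraph V) (K r : ℕ) (F P U P' : Finset V)
    (b0 u c c' f f' : V), Conf G K r F P U P' b0 u c c' f f' → Facts G F P U P' u c c' f f' →
    (∃ w ∈ U, ¬ G.Adj f w) →
    (∀ b ∈ Nb G u ∩ F, (∀ d ∈ P', ¬ G.Adj b d) →
    (U.filter (fun w => G.Adj b w ∧ ¬ G.Adj f w)).card +
    (F.filter (fun y => ¬ G.Adj u y ∧ ¬ G.Adj y c ∧ G.Adj y b)).card + (Nb G b ∩ P).card =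
    (F.filter (fun y => ¬ G.Adj u y ∧ G.Adj y c ∧ ¬ G.Adj y b)).card + (Nb G f ∩ P).card) →
    (∀ y ∈ F, ¬ G.Adj u y → G.Adj y c → G.Adj y c') → False

/-- TASK LFL (50 lines): L = {f∈F | no nbr in P} is a leaf (k+1 = K).
Proof.  |L| ≤ |F| ≤ r; nonempty: F ∋ b0, hU gives u∈U, the hypothesis gives ≥ K ≥ 1 elements.
v∉L, v~y∈L: N y ⊆ U∪F∪P and v∉P.  v∈U: N v∩L = {b∈N v∩F | no nbr in P} ≥ K.  v∈F: take u∈U, u~v
(hU); {b∈N u∩F | no nbr in P} ⊆ N v∩L (N u∩F is a clique containing v; b≠v as v∉L).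
y∈L: take u∈U, u~y; u∉L (hFU); N u∩L ⊆ N u∩F clique. -/
def S_LFL : Prop := ∀ {V : Type} [Fintype V] (G : SimpleGraph V) (k r : ℕ) (F P U : Finset V),
  Loc G (k + 1) r F P U → ∀ b0 ∈ F,
  (∀ u ∈ U, k + 1 ≤ ((Nb G u ∩ F).filter (fun b => ∀ d ∈ P, ¬ G.Adj b d)).card) →
  Leaf G k r (F.filter (fun f => ∀ d ∈ P, ¬ G.Adj f d))

end Pool.Agent.T2h75.PD
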