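import Mathlib
import Pool.Agent.T2h75.PD.Stm

/-! # PD, CNT: abstract counting -/

set_option autoImplicit false

namespace Pool.Agent.T2h75.PD
open Classical Finset

theorem t_CNT : S_CNT := by
  intro V T _ G K r hr M g hM hK hP
  by_contra hcon
  push Not at hcon
  choose φ hφ1 hφ2 hφ3 using hcon
  set D : Finset V := univ.filter (fun y => y ∉ M) with hD
  have hDne : D.Nonempty := by
    by_contra h
    rw [Finset.not_nonempty_iff_eq_empty] at h
    apply hM
    ext y
    simp only [mem_univ, iff_true]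
    by_contra hy
    have : y ∈ D := by rw [hD]; simp [hy]
    rw [h] at this
    simp at this
  set ψ : V → V := fun y => if h : y ∉ M then φ y h else y with hψ
  have hψ1 : ∀ y, y ∉ M → ψ y ∉ M ∧ g (ψ y) ≠ g y ∧ G.Adj y (ψ y) := by
    intro y hy
    have : ψ y = φ y hy := by rw [hψ]; simp [hy]
    rw [this]
    exact ⟨hφ1 y hy, hφ2 y hy, hφ3 y hy⟩
  have h1 : D.card = ∑ i ∈ D.image g, (D.filter (fun y => g y = i)).card :=
    Finset.card_eq_sum_card_fiberwise fun y hy => Finset.mem_coe.2 (Finset.mem_image_of_mem g hy)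
  have h2 : D.card = ∑ i ∈ D.image g, (D.filter (fun y => g (ψ y) = i)).card := by
    refine Finset.card_eq_sum_card_fiberwise fun y hy => Finset.mem_coe.2 ?_
    have hy' : y ∉ M := by
      have := Finset.mem_coe.1 hy
      rw [hD] at this
      simpa using this
    refine Finset.mem_image_of_mem g ?_
    rw [hD]
    simpa using (hψ1 y hy').1
  obtain ⟨i, hi, hle⟩ := Finset.exists_le_of_sum_le (hDne.image g) (h1.symm.trans h2).le
  obtain ⟨x, hx, rfl⟩ := Finset.mem_image.1 hi
  have hx' : x ∉ M := by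
    rw [hD] at hx
    simpa using hx
  have e1 : (D.filter (fun y => g y = g x)) = univ.filter (fun y => y ∉ M ∧ g y = g x) := by
    ext y
    rw [hD]
    simp
  have e2 : (D.filter (fun y => g (ψ y) = g x)) ⊆
      univ.filter (fun c => c ∉ M ∧ g c ≠ g x ∧ ∃ y, y ∉ M ∧ g y = g x ∧ G.Adj c y) := by
    intro y hy
    rw [hD] at hy
    simp only [mem_filter, mem_univ, true_and] at hy ⊢
    obtain ⟨ha, hb⟩ := hy
    obtain ⟨q1, q2, q3⟩ := hψ1 y ha
    exact ⟨ha, fun h => q2 (hb.trans h.symm), ψ y, q1, hb, q3⟩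
  have h3 := Finset.card_le_card e2
  rw [e1] at hle
  have h4 := hK x hx'
  have h5 := hP x hx'
  omega

end Pool.Agent.T2h75.PD
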