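import Pool.Agent.T2h75.PD.Stm

/-!
# Project PD, task DEG: the degree identity
-/

namespace Pool.Agent.T2h75.PD
open Classical Finset

theorem t_DEG : S_DEG := by
  intro V _ G K r F P U P' b0 u c c' f f' hC hF b hb hbP
  have hNb : ∀ v w, w ∈ Nb G v ↔ G.Adj v w := fun v w => by simp [Nb]
  have hL := hC.loc
  have hdeg : ∀ g ∈ F, (Nb G g ∩ U).card + (Nb G g ∩ F).card + (Nb G g ∩ P).card = r := by
    intro g hg
    have d1 : Disjoint (Nb G g ∩ U) (Nb G g ∩ F) :=
      Disjoint.mono inter_subset_right inter_subset_right hL.hFU.symm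
    have d2 : Disjoint ((Nb G g ∩ U) ∪ (Nb G g ∩ F)) (Nb G g ∩ P) := by
      rw [disjoint_union_left]
      exact ⟨Disjoint.mono inter_subset_right inter_subset_right hL.hPU.symm,
        Disjoint.mono inter_subset_right inter_subset_right hL.hFP⟩
    rw [← card_union_of_disjoint d1, ← card_union_of_disjoint d2, ← hC.reg g]
    congr 1
    ext x
    simp only [mem_union, mem_inter]
    constructor
    · rintro ((h | h) | h) <;> exact h.1
    · intro h
      have h1 := hL.nb g hg h
      simp only [mem_union] at h1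
      tauto
  obtain ⟨hub', hbF⟩ := mem_inter.1 hb
  have hub := (hNb u b).1 hub'
  obtain ⟨huf', hfF⟩ := mem_inter.1 hC.fB
  have huf := (hNb u f).1 huf'
  have hcl := hL.Bclq u hC.uU
  have hBc : ∀ x ∈ F, G.Adj u x →
      (F.filter (fun y => G.Adj u y ∧ G.Adj x y)).card + 1 = (Nb G u ∩ F).card := by
    intro x hx hux
    have hxm : x ∈ Nb G u ∩ F := mem_inter.2 ⟨(hNb u x).2 hux, hx⟩
    have e : F.filter (fun y => G.Adj u y ∧ G.Adj x y) = (Nb G u ∩ F).erase x := by
      ext y
      simp only [mem_filter, mem_erase, mem_inter, hNb]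
      constructor
      · rintro ⟨h1, h2, h3⟩
        exact ⟨h3.ne', h2, h1⟩
      · rintro ⟨h1, h2, h3⟩
        exact ⟨h3, h2, hcl x hxm y (mem_inter.2 ⟨(hNb u y).2 h2, h3⟩) h1.symm⟩
    rw [e, card_erase_of_mem hxm]
    have : 0 < (Nb G u ∩ F).card := card_pos.2 ⟨x, hxm⟩
    omega
  have hsplit : ∀ x, (Nb G x ∩ F).card = (F.filter (fun y => G.Adj u y ∧ G.Adj x y)).card +
      (F.filter (fun y => ¬ G.Adj u y ∧ G.Adj x y)).card := by
    intro x
    rw [← card_union_of_disjoint]
    · congr 1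
      ext y
      simp only [mem_union, mem_filter, mem_inter, hNb]
      tauto
    · rw [disjoint_left]
      intro y h1 h2
      exact (mem_filter.1 h2).2.1 (mem_filter.1 h1).2.1
  have h1 : F.filter (fun y => ¬ G.Adj u y ∧ G.Adj f y) = F.filter (fun y => ¬ G.Adj u y ∧ G.Adj y c) := by
    ext y
    simp only [mem_filter]
    constructor
    · rintro ⟨h1, h2, h3⟩
      exact ⟨h1, h2, (hF.B4 y h1 h2).1 h3.symm⟩
    · rintro ⟨h1, h2, h3⟩
      exact ⟨h1, h2, ((hF.B4 y h1 h2).2 h3).symm⟩
  have h2 : (F.filter (fun y => ¬ G.Adj u y ∧ G.Adj y c)).card =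
      (F.filter (fun y => ¬ G.Adj u y ∧ G.Adj y c ∧ G.Adj y b)).card +
      (F.filter (fun y => ¬ G.Adj u y ∧ G.Adj y c ∧ ¬ G.Adj y b)).card := by
    rw [← card_union_of_disjoint]
    · congr 1
      ext y
      simp only [mem_union, mem_filter]
      tauto
    · rw [disjoint_left]
      intro y h1 h2
      exact (mem_filter.1 h2).2.2.2 (mem_filter.1 h1).2.2.2
  have h3 : (F.filter (fun y => ¬ G.Adj u y ∧ G.Adj b y)).card =
      (F.filter (fun y => ¬ G.Adj u y ∧ G.Adj y c ∧ G.Adj y b)).card +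
      (F.filter (fun y => ¬ G.Adj u y ∧ ¬ G.Adj y c ∧ G.Adj y b)).card := by
    rw [← card_union_of_disjoint]
    · congr 1
      ext y
      simp only [mem_union, mem_filter, G.adj_comm b y]
      tauto
    · rw [disjoint_left]
      intro y h1 h2
      exact (mem_filter.1 h2).2.2.1 (mem_filter.1 h1).2.2.1
  have h4 : (Nb G b ∩ U).card = (Nb G f ∩ U).card +
      (U.filter (fun w => G.Adj b w ∧ ¬ G.Adj f w)).card := by
    rw [← card_union_of_disjoint]
    · congr 1
      ext y
      have h5 : y ∈ Nb G f ∩ U → y ∈ Nb G b ∩ U := fun h => hF.U0b b hb hbP h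
      simp only [mem_union, mem_filter, mem_inter, hNb] at h5 ⊢
      tauto
    · rw [disjoint_left]
      intro y h1 h2
      exact (mem_filter.1 h2).2.2 ((hNb f y).1 (mem_inter.1 h1).1)
  have e1 := hdeg f hfF
  have e2 := hdeg b hbF
  have e3 := hBc f hfF huf
  have e4 := hBc b hbF hub
  have e5 := hsplit f
  have e6 := hsplit b
  rw [h1] at e5
  omega

end Pool.Agent.T2h75.PD
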