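import Pool.Agent.T2h75.PD.Stm

/-!
# Project PD, task FCT
-/

namespace Pool.Agent.T2h75.PD
open Classical Finset

namespace FCT

variable {V : Type} [Fintype V] {G : SimpleGraph V} {K r : ℕ} {F P U : Finset V}

lemma mNb {v w : V} : w ∈ Nb G v ↔ G.Adj v w := by simp [Nb]

lemma key (L : Loc G K r F P U) {g d h w : V} (hg : g ∈ F) (hd : d ∈ P) (gd : G.Adj g d)
    (hh : h ∈ F) (gh : G.Adj g h) (dh : ¬ G.Adj d h) (hw : w ∈ U) (gw : G.Adj g w) :
    G.Adj h w := by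
  have h1 := L.A4 g hg d hd gd
  have h2 : h ∈ (Nb G g ∩ U) ∪ ((Nb G g ∩ F) \ Nb G d) := by
    refine mem_union_right _ (mem_sdiff.2 ⟨mem_inter.2 ⟨mNb.2 gh, hh⟩, fun h' => dh (mNb.1 h')⟩)
  have h3 : w ∈ (Nb G g ∩ U) ∪ ((Nb G g ∩ F) \ Nb G d) := by
    exact mem_union_left _ (mem_inter.2 ⟨mNb.2 gw, hw⟩)
  refine h1 h h2 w h3 ?_
  rintro rfl
  exact Finset.disjoint_left.1 L.hFU hh hw

lemma keyB (L : Loc G K r F P U) {w a b : V} (hw : w ∈ U) (ha : a ∈ F) (hb : b ∈ F)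
    (wa : G.Adj w a) (wb : G.Adj w b) (hab : a ≠ b) : G.Adj a b :=
  L.Bclq w hw a (by rw [mem_inter, mNb]; exact ⟨wa, ha⟩) b
    (by rw [mem_inter, mNb]; exact ⟨wb, hb⟩) hab

lemma keyP (L : Loc G K r F P U) {c a b : V} (hc : c ∈ P) (ha : a ∈ F) (hb : b ∈ F)
    (ca : G.Adj c a) (cb : G.Adj c b) (hab : a ≠ b) : G.Adj a b :=
  L.A5 c hc a (by rw [mem_inter, mNb]; exact ⟨ca, ha⟩) b
    (by rw [mem_inter, mNb]; exact ⟨cb, hb⟩) hab

end FCT

open FCT in
theorem t_FCT : S_FCT := by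
  intro V _ G K r F P U P' b0 u c c' f f' C
  have L := C.loc
  have cP : c ∈ P := C.P'P C.cP'
  have c'P : c' ∈ P := C.P'P C.c'P'
  obtain ⟨uf, fF⟩ : G.Adj u f ∧ f ∈ F := by
    have := C.fB
    rwa [mem_inter, mNb] at this
  obtain ⟨uf', f'F⟩ : G.Adj u f' ∧ f' ∈ F := by
    have := C.f'B
    rwa [mem_inter, mNb] at this
  have fc := C.fc
  have f'c' := C.f'c'
  have nfc' : ¬ G.Adj f c' := C.fpriv c' C.c'P' C.cc'.symm
  have nf'c : ¬ G.Adj f' c := C.f'priv c C.cP' C.cc'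
  have hff' : f ≠ f' := by
    rintro rfl
    exact nf'c fc
  have aff' : G.Adj f f' := keyB L C.uU fF f'F uf uf' hff'
  have U0 : ∀ w ∈ U, G.Adj f w ↔ G.Adj f' w := fun w hw =>
    ⟨fun h => key L fF cP fc f'F aff' (fun h' => nf'c h'.symm) hw h,
      fun h => key L f'F c'P f'c' fF aff'.symm (fun h' => nfc' h'.symm) hw h⟩
  have B3 : ∀ g ∈ F, ∀ d ∈ P', G.Adj g d → (G.Adj g f ∧ d ≠ c ∨ G.Adj g f' ∧ d ≠ c') →
      ∀ w ∈ U, G.Adj g w → G.Adj f w := by
    intro g hg d hd gd h w hw gw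
    rcases h with ⟨gf, hdc⟩ | ⟨gf', hdc'⟩
    · exact key L hg (C.P'P hd) gd fF gf (fun h' => C.fpriv d hd hdc h'.symm) hw gw
    · exact (U0 w hw).2 (key L hg (C.P'P hd) gd f'F gf' (fun h' => C.f'priv d hd hdc' h'.symm)
        hw gw)
  have B4 : ∀ y ∈ F, ¬ G.Adj u y → (G.Adj y f ↔ G.Adj y c) := by
    intro y hy huy
    have hyf : y ≠ f := by
      rintro rfl
      exact huy uf
    constructor
    · intro yf
      by_contra hyc
      exact huy (key L fF cP fc hy yf.symm (fun h' => hyc h'.symm) C.uU uf.symm).symm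
    · intro yc
      exact keyP L cP hy fF yc.symm fc.symm hyf
  have B4' : ∀ y ∈ F, ¬ G.Adj u y → (G.Adj y f' ↔ G.Adj y c') := by
    intro y hy huy
    have hyf : y ≠ f' := by
      rintro rfl
      exact huy uf'
    constructor
    · intro yf
      by_contra hyc
      exact huy (key L f'F c'P f'c' hy yf.symm (fun h' => hyc h'.symm) C.uU uf'.symm).symm
    · intro yc
      exact keyP L c'P hy f'F yc.symm f'c'.symm hyf
  refine ⟨?_, ?_, ?_, ?_, B4, B4', ?_, ?_⟩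
  · ext w
    rw [mem_inter, mem_inter, mNb, mNb]
    exact ⟨fun h => ⟨(U0 w h.2).1 h.1, h.2⟩, fun h => ⟨(U0 w h.2).2 h.1, h.2⟩⟩
  · intro b hb hbP w hw
    rw [mem_inter, mNb] at hb hw ⊢
    have hbf : f ≠ b := by
      rintro rfl
      exact hbP c C.cP' fc
    exact ⟨key L fF cP fc hb.2 (keyB L C.uU fF hb.2 uf hb.1 hbf)
      (fun h' => hbP c C.cP' h'.symm) hw.2 hw.1, hw.2⟩
  · intro g hg d hd gd h w hw
    rw [mem_inter, mNb] at hw ⊢
    exact ⟨B3 g hg d hd gd h w hw.2 hw.1, hw.2⟩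
  · intro w hw nfw b hb ub d hd bd
    rw [mem_inter, mNb] at hb
    have hbf : b ≠ f := by
      rintro rfl
      exact nfw hb.1.symm
    have hbf' : b ≠ f' := by
      rintro rfl
      exact nfw ((U0 w hw).2 hb.1.symm)
    have bf := keyB L C.uU hb.2 fF ub uf hbf
    have bf' := keyB L C.uU hb.2 f'F ub uf' hbf'
    by_cases hdc : d = c
    · have hdc' : d ≠ c' := by
        rw [hdc]
        exact C.cc'
      exact nfw (B3 b hb.2 d hd bd (Or.inr ⟨bf', hdc'⟩) w hw hb.1.symm)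
    · exact nfw (B3 b hb.2 d hd bd (Or.inl ⟨bf, hdc⟩) w hw hb.1.symm)
  · intro y hy huy hyc w hw yw fw
    have hyf : y ≠ f := by
      rintro rfl
      exact huy uf
    exact hyc ((B4 y hy huy).1 (keyB L hw hy fF yw.symm fw.symm hyf))
  · intro y hy huy hyc w hw yw fw
    have hyf : y ≠ f' := by
      rintro rfl
      exact huy uf'
    exact hyc ((B4' y hy huy).1 (keyB L hw hy f'F yw.symm ((U0 w hw).1 fw).symm hyf))

end Pool.Agent.T2h75.PD
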