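import Pool.Agent.T2h75.PD.Stm

/-!
# FIN: the final contradiction (a weighted sum)
-/

set_option autoImplicit false

namespace Pool.Agent.T2h75.PD
open Classical Finset

namespace FIN

/-- the weighted double counting -/
theorem wsum {V : Type} (W X : Finset V) (A : V → V → Prop) (q : V → ℕ) (K p : ℕ)
    (hpK : p + 1 ≤ K) (hp : 1 ≤ p) (hX : X.card + 1 ≤ K) (hW : p + 2 ≤ W.card)
    (hq : ∀ w ∈ W, q w + 1 ≤ p) (hc : ∀ w ∈ W, K ≤ (X.filter (fun b => A b w)).card + q w)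
    (hb : ∀ b ∈ X, ∀ w ∈ W, A b w → (W.filter (fun w => A b w)).card + q w ≤ p) : False := by
  have hp0 : (0 : ℚ) < p := by exact_mod_cast hp
  have hpK' : (p : ℚ) + 1 ≤ K := by exact_mod_cast hpK
  have hX' : (X.card : ℚ) + 1 ≤ K := by exact_mod_cast hX
  have hW' : (p : ℚ) + 2 ≤ W.card := by exact_mod_cast hW
  have hswap : ∑ b ∈ X, ∑ w ∈ W.filter (fun w => A b w), 1 / ((p : ℚ) - q w) =
      ∑ w ∈ W, ∑ b ∈ X.filter (fun b => A b w), 1 / ((p : ℚ) - q w) := by
    refine Finset.sum_comm' ?_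
    intro b w
    simp only [Finset.mem_filter]
    tauto
  have h1 : ∑ b ∈ X, ∑ w ∈ W.filter (fun w => A b w), 1 / ((p : ℚ) - q w) ≤ X.card := by
    have h2 : ∀ b ∈ X, ∑ w ∈ W.filter (fun w => A b w), 1 / ((p : ℚ) - q w) ≤ 1 := by
      intro b hbX
      rcases (W.filter (fun w => A b w)).eq_empty_or_nonempty with h0 | h0
      · rw [h0, Finset.sum_empty]
        norm_num
      · have hm : (0 : ℚ) < (W.filter (fun w => A b w)).card := by
          exact_mod_cast Finset.card_pos.2 h0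
        have h3 : ∀ w ∈ W.filter (fun w => A b w), 1 / ((p : ℚ) - q w) ≤
            1 / ((W.filter (fun w => A b w)).card : ℚ) := by
          intro w hw
          rw [Finset.mem_filter] at hw
          have h4 := hb b hbX w hw.1 hw.2
          have h5 : (((W.filter (fun w => A b w)).card : ℕ) : ℚ) + q w ≤ p := by exact_mod_cast h4
          exact one_div_le_one_div_of_le hm (by linarith)
        have h4 := Finset.sum_le_card_nsmul _ _ _ h3
        refine h4.trans (le_of_eq ?_)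
        rw [nsmul_eq_mul, mul_one_div, div_self hm.ne']
    have h3 := Finset.sum_le_card_nsmul _ _ _ h2
    rwa [nsmul_eq_mul, mul_one] at h3
  have h2 : (W.card : ℚ) * (K / p) ≤
      ∑ w ∈ W, ∑ b ∈ X.filter (fun b => A b w), 1 / ((p : ℚ) - q w) := by
    have h3 : ∀ w ∈ W, (K : ℚ) / p ≤ ∑ b ∈ X.filter (fun b => A b w), 1 / ((p : ℚ) - q w) := by
      intro w hw
      have h4 : (q w : ℚ) + 1 ≤ p := by exact_mod_cast hq w hw
      have h5 : (K : ℚ) ≤ ((X.filter (fun b => A b w)).card : ℕ) + q w := by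
        exact_mod_cast hc w hw
      have h6 : (0 : ℚ) ≤ q w := Nat.cast_nonneg _
      rw [Finset.sum_const, nsmul_eq_mul, mul_one_div, div_le_div_iff₀ hp0 (by linarith)]
      have h7 : ((K : ℚ) - q w) * p ≤ ((X.filter (fun b => A b w)).card : ℕ) * p :=
        mul_le_mul_of_nonneg_right (by linarith) hp0.le
      nlinarith
    have h4 := Finset.card_nsmul_le_sum _ _ _ h3
    rwa [nsmul_eq_mul] at h4
  rw [← hswap] at h2
  have h3 := h2.trans h1
  have hK0 : (0 : ℚ) < K := by linarith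
  have h4 : ((p : ℚ) + 2) * (K / p) ≤ W.card * (K / p) :=
    mul_le_mul_of_nonneg_right hW' (by positivity)
  have h5 : ((p : ℚ) + 2) * (K / p) = ((p + 2) * K) / p := by ring
  rw [h5, div_le_iff₀ hp0] at h4
  have h6 : (W.card : ℚ) * (K / p) * p ≤ X.card * p := mul_le_mul_of_nonneg_right h3 hp0.le
  have h7 : (X.card : ℚ) * p ≤ (K - 1) * p := mul_le_mul_of_nonneg_right (by linarith) hp0.le
  nlinarith

end FIN

theorem t_FIN : S_FIN := by
  intro V _ G K r F P U P' b0 u c c' f f' hC hF hW hdeg hnon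
  obtain ⟨hL, hreg, hr, hb0F, hb0P, hP'P, huU, hcP', hc'P', hcc', hfB, hf'B, hfc, hf'c', hfpriv,
    hf'priv, hX⟩ := hC
  obtain ⟨hFP, hFU, hPU, hcard, hnb, hUU, hBclq, hBcard, hA5, hA4, hA6⟩ := hL
  obtain ⟨hU0, hU0b, hB3, hB3', hB4, hB4', hB4U, hB4U'⟩ := hF
  have mNb : ∀ a b, b ∈ Nb G a ↔ G.Adj a b := by intro a b; simp [Nb]
  have ha : ∀ y ∈ F, ¬ G.Adj u y → G.Adj y c → Nb G y ∩ U ⊆ Nb G f ∩ U := by
    intro y hy huy hyc
    have h1 := hnon y hy huy hyc
    have h2 := (hB4' y hy huy).2 h1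
    exact hB3 y hy c hcP' hyc (Or.inr ⟨h2, hcc'⟩)
  have ha2 : ∀ b ∈ Nb G u ∩ F, (∀ d ∈ P', ¬ G.Adj b d) → ∀ y ∈ F, ¬ G.Adj u y →
      G.Adj y c → G.Adj y b := by
    intro b hb hbP y hy huy hyc
    obtain ⟨w, hw, hwy⟩ := hUU y hy
    have h1 : w ∈ Nb G y ∩ U := Finset.mem_inter.2 ⟨(mNb y w).2 hwy.symm, hw⟩
    have h2 := hU0b b hb hbP (ha y hy huy hyc h1)
    rw [Finset.mem_inter, mNb] at h2
    have hb' := Finset.mem_inter.1 hb
    rw [mNb] at hb'
    refine hBclq w hw y ?_ b ?_ ?_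
    · exact Finset.mem_inter.2 ⟨(mNb w y).2 hwy, hy⟩
    · exact Finset.mem_inter.2 ⟨(mNb w b).2 h2.1.symm, hb'.2⟩
    · rintro rfl
      exact huy hb'.1
  have hdeg' : ∀ b ∈ Nb G u ∩ F, (∀ d ∈ P', ¬ G.Adj b d) →
      (U.filter (fun w => G.Adj b w ∧ ¬ G.Adj f w)).card +
      (F.filter (fun y => ¬ G.Adj u y ∧ ¬ G.Adj y c ∧ G.Adj y b)).card ≤ (Nb G f ∩ P).card := by
    intro b hb hbP
    have h1 := hdeg b hb hbP
    have h2 : (F.filter (fun y => ¬ G.Adj u y ∧ G.Adj y c ∧ ¬ G.Adj y b)).card = 0 := by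
      rw [Finset.card_eq_zero, Finset.filter_eq_empty_iff]
      rintro y hy ⟨h3, h4, h5⟩
      exact h5 (ha2 b hb hbP y hy h3 h4)
    omega
  have hfF : f ∈ F := (Finset.mem_inter.1 hfB).2
  have huf : G.Adj u f := (mNb u f).1 (Finset.mem_inter.1 hfB).1
  have hBF : (Nb G u ∩ F).card ≤ F.card := Finset.card_le_card Finset.inter_subset_right
  have hKB := hBcard u huU
  have hpP : (Nb G f ∩ P).card ≤ P.card := Finset.card_le_card Finset.inter_subset_right
  have hp1 : 1 ≤ (Nb G f ∩ P).card :=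
    Finset.card_pos.2 ⟨c, Finset.mem_inter.2 ⟨(mNb f c).2 hfc, hP'P hcP'⟩⟩
  have hpK : (Nb G f ∩ P).card + 1 ≤ K := by omega
  -- the split of `N w ∩ F`
  have hsplit : ∀ w, ((Nb G w ∩ F).filter (fun y => G.Adj u y)).card +
      ((Nb G w ∩ F).filter (fun y => ¬ G.Adj u y)).card = (Nb G w ∩ F).card := fun w =>
    Finset.card_filter_add_card_filter_not _
  have hXX : ∀ w ∈ U, ¬ G.Adj f w → (Nb G w ∩ F).filter (fun y => G.Adj u y) =
      ((Nb G u ∩ F).filter (fun b => ∀ d ∈ P', ¬ G.Adj b d)).filter (fun b => G.Adj b w) := by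
    intro w hw hfw
    ext b
    simp only [Finset.mem_filter, Finset.mem_inter, mNb]
    constructor
    · rintro ⟨⟨h1, h2⟩, h3⟩
      exact ⟨⟨⟨h3, h2⟩, hB3' w hw hfw b (Finset.mem_inter.2 ⟨(mNb _ _).2 h1, h2⟩) h3⟩, h1.symm⟩
    · rintro ⟨⟨⟨h3, h2⟩, -⟩, h1⟩
      exact ⟨⟨h1.symm, h2⟩, h3⟩
  have hQc : ∀ w ∈ U, ¬ G.Adj f w → ∀ y ∈ (Nb G w ∩ F).filter (fun y => ¬ G.Adj u y),
      ¬ G.Adj y c := by
    intro w hw hfw y hy hyc
    simp only [Finset.mem_filter, Finset.mem_inter, mNb] at hy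
    have h1 := ha y hy.1.2 hy.2 hyc (Finset.mem_inter.2 ⟨(mNb y w).2 hy.1.1.symm, hw⟩)
    exact hfw ((mNb f w).1 (Finset.mem_inter.1 h1).1)
  -- sizes of `X_w`
  have hXwle : ∀ w ∈ U, ¬ G.Adj f w → ((Nb G w ∩ F).filter (fun y => G.Adj u y)).card + 1 ≤ K := by
    intro w hw hfw
    rw [hXX w hw hfw]
    have := Finset.card_le_card (Finset.filter_subset (fun b => G.Adj b w)
      ((Nb G u ∩ F).filter (fun b => ∀ d ∈ P', ¬ G.Adj b d)))
    omega
  -- `X_w` is not empty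
  have hXwne : ∀ w ∈ U, ((Nb G w ∩ F).filter (fun y => G.Adj u y)).Nonempty := by
    intro w hw
    have h1 := hBcard w hw
    have h2 : ((Nb G w ∩ F) ∪ (Nb G u ∩ F)).card ≤ F.card :=
      Finset.card_le_card (Finset.union_subset Finset.inter_subset_right Finset.inter_subset_right)
    have h3 := Finset.card_union_add_card_inter (Nb G w ∩ F) (Nb G u ∩ F)
    have h4 : 0 < ((Nb G w ∩ F) ∩ (Nb G u ∩ F)).card := by omega
    obtain ⟨b, hb⟩ := Finset.card_pos.1 h4
    simp only [Finset.mem_inter, mNb] at hb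
    exact ⟨b, by simp only [Finset.mem_filter, Finset.mem_inter, mNb]; exact ⟨hb.1, hb.2.1⟩⟩
  -- (c)
  have hWcard : (Nb G f ∩ P).card + 2 ≤ (U.filter (fun w => ¬ G.Adj f w)).card := by
    obtain ⟨w, hw, hfw⟩ := hW
    have h1 := hBcard w hw
    have h2 := hsplit w
    have h3 := hXwle w hw hfw
    have h4 : 0 < ((Nb G w ∩ F).filter (fun y => ¬ G.Adj u y)).card := by omega
    obtain ⟨y, hy⟩ := Finset.card_pos.1 h4
    have hyc := hQc w hw hfw y hy
    simp only [Finset.mem_filter, Finset.mem_inter, mNb] at hy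
    obtain ⟨⟨hwy, hyF⟩, huy⟩ := hy
    have hyf : ¬ G.Adj y f := fun h => hyc ((hB4 y hyF huy).1 h)
    have hyne : y ≠ f := by
      rintro rfl
      exact huy huf
    -- degrees
    have e1 : (Nb G y ∩ F).card + 2 ≤ F.card := by
      have h5 : Nb G y ∩ F ⊆ (F.erase y).erase f := by
        intro z hz
        rw [Finset.mem_inter, mNb] at hz
        rw [Finset.mem_erase, Finset.mem_erase]
        refine ⟨?_, ?_, hz.2⟩
        · rintro rfl
          exact hyf hz.1
        · rintro rfl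
          exact G.loopless.irrefl _ hz.1
      have h6 := Finset.card_le_card h5
      have h7 : f ∈ F.erase y := Finset.mem_erase.2 ⟨hyne.symm, hfF⟩
      have h8 := Finset.card_erase_of_mem h7
      have h9 := Finset.card_erase_of_mem hyF
      have h10 := Finset.card_pos.2 ⟨f, h7⟩
      omega
    have e2 : (Nb G y ∩ P).card + (Nb G f ∩ P).card ≤ P.card := by
      have h5 : Disjoint (Nb G y ∩ P) (Nb G f ∩ P) := by
        rw [Finset.disjoint_left]
        intro d hd hd'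
        rw [Finset.mem_inter, mNb] at hd hd'
        exact hyf (hA5 d hd.2 y (Finset.mem_inter.2 ⟨(mNb _ _).2 hd.1.symm, hyF⟩) f
          (Finset.mem_inter.2 ⟨(mNb _ _).2 hd'.1.symm, hfF⟩) hyne)
      rw [← Finset.card_union_of_disjoint h5]
      exact Finset.card_le_card
        (Finset.union_subset Finset.inter_subset_right Finset.inter_subset_right)
    have e3 : (Nb G y).card ≤ (Nb G y ∩ U).card + (Nb G y ∩ F).card + (Nb G y ∩ P).card := by
      have h5 : Nb G y ⊆ (Nb G y ∩ U) ∪ (Nb G y ∩ F) ∪ (Nb G y ∩ P) := by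
        intro z hz
        have h6 := hnb y hyF hz
        simp only [Finset.mem_union, Finset.mem_inter] at h6 ⊢
        tauto
      refine (Finset.card_le_card h5).trans ?_
      refine (Finset.card_union_le _ _).trans ?_
      have := Finset.card_union_le (Nb G y ∩ U) (Nb G y ∩ F)
      omega
    have e4 : (Nb G y ∩ U).card ≤ (U.filter (fun w => ¬ G.Adj f w)).card := by
      apply Finset.card_le_card
      intro z hz
      rw [Finset.mem_inter, mNb] at hz
      rw [Finset.mem_filter]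
      exact ⟨hz.2, hB4U y hyF huy hyc z hz.2 hz.1⟩
    have e5 := hreg y
    omega
  -- (d)
  have hd : ∀ w ∈ U, ¬ G.Adj f w → ∀ b ∈ Nb G u ∩ F, (∀ d ∈ P', ¬ G.Adj b d) → G.Adj b w →
      (U.filter (fun w => G.Adj b w ∧ ¬ G.Adj f w)).card +
      ((Nb G w ∩ F).filter (fun y => ¬ G.Adj u y)).card ≤ (Nb G f ∩ P).card := by
    intro w hw hfw b hb hbP hbw
    have h1 := hdeg' b hb hbP
    have h2 : (Nb G w ∩ F).filter (fun y => ¬ G.Adj u y) ⊆
        F.filter (fun y => ¬ G.Adj u y ∧ ¬ G.Adj y c ∧ G.Adj y b) := by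
      intro y hy
      have hyc := hQc w hw hfw y hy
      simp only [Finset.mem_filter, Finset.mem_inter, mNb] at hy ⊢
      obtain ⟨⟨hwy, hyF⟩, huy⟩ := hy
      have hb' := Finset.mem_inter.1 hb
      rw [mNb] at hb'
      refine ⟨hyF, huy, hyc, hBclq w hw y ?_ b ?_ ?_⟩
      · exact Finset.mem_inter.2 ⟨(mNb w y).2 hwy, hyF⟩
      · exact Finset.mem_inter.2 ⟨(mNb w b).2 hbw.symm, hb'.2⟩
      · rintro rfl
        exact huy hb'.1
    have h3 := Finset.card_le_card h2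
    omega
  -- the end
  refine FIN.wsum (U.filter (fun w => ¬ G.Adj f w))
    ((Nb G u ∩ F).filter (fun b => ∀ d ∈ P', ¬ G.Adj b d)) (fun b w => G.Adj b w)
    (fun w => ((Nb G w ∩ F).filter (fun y => ¬ G.Adj u y)).card) K (Nb G f ∩ P).card hpK hp1 hX
    hWcard ?_ ?_ ?_
  · intro w hw
    rw [Finset.mem_filter] at hw
    obtain ⟨b, hb⟩ := hXwne w hw.1
    rw [hXX w hw.1 hw.2, Finset.mem_filter, Finset.mem_filter] at hb
    have h1 := hd w hw.1 hw.2 b hb.1.1 hb.1.2 hb.2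
    have h2 : 0 < (U.filter (fun w => G.Adj b w ∧ ¬ G.Adj f w)).card :=
      Finset.card_pos.2 ⟨w, Finset.mem_filter.2 ⟨hw.1, hb.2, hw.2⟩⟩
    show ((Nb G w ∩ F).filter (fun y => ¬ G.Adj u y)).card + 1 ≤ _
    omega
  · intro w hw
    rw [Finset.mem_filter] at hw
    show K ≤ (((Nb G u ∩ F).filter (fun b => ∀ d ∈ P', ¬ G.Adj b d)).filter
      (fun b => G.Adj b w)).card + ((Nb G w ∩ F).filter (fun y => ¬ G.Adj u y)).card
    rw [← hXX w hw.1 hw.2, hsplit w]
    exact hBcard w hw.1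
  · intro b hb w hw hbw
    rw [Finset.mem_filter] at hb hw
    have h1 := hd w hw.1 hw.2 b hb.1 hb.2 hbw
    have h2 : (U.filter (fun w => ¬ G.Adj f w)).filter (fun w => G.Adj b w) =
        U.filter (fun w => G.Adj b w ∧ ¬ G.Adj f w) := by
      ext z
      simp only [Finset.mem_filter]
      tauto
    show ((U.filter (fun w => ¬ G.Adj f w)).filter (fun w => G.Adj b w)).card +
      ((Nb G w ∩ F).filter (fun y => ¬ G.Adj u y)).card ≤ _
    rw [h2]
    exact h1

end Pool.Agent.T2h75.PD
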