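import Pool.Agent.T2h75.PD.Stm

/-!
# LF0: a leaf is completely monitored from each of its vertices
-/

namespace Pool.Agent.T2h75.PD
open Classical Finset

namespace LF0Aux

theorem mem_Nb {V : Type} [Fintype V] {G : SimpleGraph V} {v w : V} :
    w ∈ Nb G v ↔ G.Adj v w := by
  simp [Nb]

theorem full {V : Type} [Fintype V] (G : SimpleGraph V) (k r : ℕ) (hr : r ≤ 2 * k + 1)
    (hreg : ∀ v, (Nb G v).card = r) (M : Finset V) (hM : Closed G k M) (q : V) (hq : q ∈ M)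
    (hc : k + 1 ≤ (Nb G q ∩ M).card) : Nb G q ⊆ M := by
  refine hM q hq ?_
  have h1 := Finset.card_sdiff_add_card_inter (Nb G q) M
  have h2 := hreg q
  omega

theorem key {V : Type} [Fintype V] (G : SimpleGraph V) (k r : ℕ) (hr : r ≤ 2 * k + 1)
    (hreg : ∀ v, (Nb G v).card = r) (M : Finset V) (hM : Closed G k M) (L : Finset V) (u : V)
    (huL : u ∉ L) (huM : u ∈ M) (hcl : Clq G (Nb G u ∩ L)) (hc : k + 1 ≤ (Nb G u ∩ L).card)
    (hsub : Nb G u ∩ L ⊆ M) : ∀ q ∈ Nb G u ∩ L, Nb G q ⊆ M := by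
  intro q hq
  refine full G k r hr hreg M hM q (hsub hq) ?_
  have hq' := Finset.mem_inter.1 hq
  have h1 : insert u ((Nb G u ∩ L).erase q) ⊆ Nb G q ∩ M := by
    intro z hz
    rcases Finset.mem_insert.1 hz with rfl | hz
    · exact Finset.mem_inter.2 ⟨mem_Nb.2 (mem_Nb.1 hq'.1).symm, huM⟩
    · have hz1 := Finset.mem_of_mem_erase hz
      exact Finset.mem_inter.2 ⟨mem_Nb.2 (hcl q hq z hz1 (Finset.ne_of_mem_erase hz).symm),
        hsub hz1⟩
  have h2 : u ∉ (Nb G u ∩ L).erase q := fun h =>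
    huL (Finset.mem_inter.1 (Finset.mem_of_mem_erase h)).2
  have h3 := Finset.card_le_card h1
  rw [Finset.card_insert_of_notMem h2, Finset.card_erase_of_mem hq] at h3
  omega

end LF0Aux

open LF0Aux in
theorem t_LF0 : S_LF0 := by
  intro V _ G k r hr hreg L hL x hx M hM hxM y hy
  obtain ⟨-, hLc, h3, h4⟩ := hL
  obtain ⟨u0, hu0L, hu0x, hcl0⟩ := h4 x hx
  obtain ⟨u, huL, huy, hcl⟩ := h4 y hy
  have hc0 := h3 u0 hu0L ⟨x, hx, hu0x⟩
  have hc := h3 u huL ⟨y, hy, huy⟩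
  have hxQ : x ∈ Nb G u0 ∩ L := Finset.mem_inter.2 ⟨mem_Nb.2 hu0x, hx⟩
  have hsub0 : Nb G u0 ∩ L ⊆ M := by
    intro q hq
    by_cases h : x = q
    · subst h
      exact hxM (Finset.mem_insert_self _ _)
    · exact hxM (Finset.mem_insert_of_mem (mem_Nb.2 (hcl0 x hxQ q hq h)))
  have hu0M : u0 ∈ M := hxM (Finset.mem_insert_of_mem (mem_Nb.2 hu0x.symm))
  have hk0 := key G k r hr hreg M hM L u0 hu0L hu0M hcl0 hc0 hsub0
  obtain ⟨q, hq⟩ : ((Nb G u0 ∩ L) ∩ (Nb G u ∩ L)).Nonempty := by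
    rw [← Finset.card_pos]
    have h5 := Finset.card_union_add_card_inter (Nb G u0 ∩ L) (Nb G u ∩ L)
    have h6 : ((Nb G u0 ∩ L) ∪ (Nb G u ∩ L)).card ≤ L.card :=
      Finset.card_le_card (Finset.union_subset Finset.inter_subset_right Finset.inter_subset_right)
    omega
  obtain ⟨hq0, hq1⟩ := Finset.mem_inter.1 hq
  have hqM := hk0 q hq0
  have huM : u ∈ M := hqM (mem_Nb.2 (mem_Nb.1 (Finset.mem_inter.1 hq1).1).symm)
  have hsub : Nb G u ∩ L ⊆ M := by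
    intro z hz
    by_cases h : q = z
    · subst h
      exact hsub0 hq0
    · exact hqM (mem_Nb.2 (hcl q hq1 z hz h))
  have hk := key G k r hr hreg M hM L u huL huM hcl hc hsub
  have hyQ : y ∈ Nb G u ∩ L := Finset.mem_inter.2 ⟨mem_Nb.2 huy, hy⟩
  exact ⟨hsub hyQ, hk y hyQ⟩

end Pool.Agent.T2h75.PD
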