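import Pool.Agent.T2h75.PD.Stm

/-!
# Project PD, task LFL: a leaf from the local structure
-/

namespace Pool.Agent.T2h75.PD
open Classical Finset

theorem t_LFL : S_LFL := by
  intro V _ G k r F P U hL b0 hb0 hK
  have hmem : ∀ y, y ∈ F.filter (fun f => ∀ d ∈ P, ¬ G.Adj f d) ↔ y ∈ F ∧ ∀ d ∈ P, ¬ G.Adj y d :=
    fun y => by simp
  set L := F.filter (fun f => ∀ d ∈ P, ¬ G.Adj f d) with hLd
  have hNb : ∀ v w, w ∈ Nb G v ↔ G.Adj v w := fun v w => by simp [Nb]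
  have hsub : ∀ u, (Nb G u ∩ F).filter (fun b => ∀ d ∈ P, ¬ G.Adj b d) ⊆ Nb G u ∩ L := by
    intro u b hb
    obtain ⟨h1, h2⟩ := mem_filter.1 hb
    obtain ⟨h3, h4⟩ := mem_inter.1 h1
    exact mem_inter.2 ⟨h3, (hmem b).2 ⟨h4, h2⟩⟩
  refine ⟨?_, ?_, ?_, ?_⟩
  · obtain ⟨u, hu, -⟩ := hL.hU b0 hb0
    have h1 := (hK u hu).trans (card_le_card (hsub u))
    have h2 : (Nb G u ∩ L).Nonempty := card_pos.1 (by omega)
    exact h2.mono inter_subset_right
  · have h1 : L.card ≤ F.card := card_le_card (filter_subset _ _)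
    have := hL.card
    omega
  · rintro v hv ⟨y, hy, hvy⟩
    have hyF := ((hmem y).1 hy).1
    have h1 := hL.nb y hyF ((hNb y v).2 hvy.symm)
    rcases mem_union.1 h1 with h2 | h2
    · rcases mem_union.1 h2 with h3 | h3
      · exact (hK v h3).trans (card_le_card (hsub v))
      · obtain ⟨u, hu, huv⟩ := hL.hU v h3
        refine (hK u hu).trans (card_le_card ?_)
        intro b hb
        obtain ⟨h4, h5⟩ := mem_filter.1 hb
        have hbL : b ∈ L := (hmem b).2 ⟨(mem_inter.1 h4).2, h5⟩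
        have hne : b ≠ v := fun h => hv (h ▸ hbL)
        have h6 := hL.Bclq u hu v (mem_inter.2 ⟨(hNb u v).2 huv, h3⟩) b h4 hne.symm
        exact mem_inter.2 ⟨(hNb v b).2 h6, hbL⟩
    · exact absurd hvy.symm (((hmem y).1 hy).2 v h2)
  · intro y hy
    have hyF := ((hmem y).1 hy).1
    obtain ⟨u, hu, huy⟩ := hL.hU y hyF
    refine ⟨u, fun h => ?_, huy, ?_⟩
    · exact disjoint_left.1 hL.hFU ((hmem u).1 h).1 hu
    · intro a ha b hb hab
      obtain ⟨ha1, ha2⟩ := mem_inter.1 ha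
      obtain ⟨hb1, hb2⟩ := mem_inter.1 hb
      exact hL.Bclq u hu a (mem_inter.2 ⟨ha1, ((hmem a).1 ha2).1⟩) b
        (mem_inter.2 ⟨hb1, ((hmem b).1 hb2).1⟩) hab

end Pool.Agent.T2h75.PD
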