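import Pool.Agent.T2h75.PD.Stm

set_option autoImplicit false

namespace Pool.Agent.T2h75.PD
open Classical Finset

theorem LOC_mem_Nb {V : Type} [Fintype V] (G : SimpleGraph V) (v w : V) :
    w ∈ Nb G v ↔ G.Adj v w := by
  unfold Nb
  simp

theorem LOC_mem_NbC {V : Type} [Fintype V] (G : SimpleGraph V) (v w : V) :
    w ∈ NbC G v ↔ w = v ∨ G.Adj v w := by
  unfold NbC
  rw [mem_insert, LOC_mem_Nb]

theorem t_LOC : S_CLO → S_LOC := by
  intro hCLO V _ G k r hr hreg hcf M hMc hMcov hgain x hx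
  obtain ⟨c1, c2, c3, -⟩ := hCLO G k
  obtain ⟨g, hg⟩ : ∃ g : V → Finset V, ∀ y, g y = cl G k (M ∪ NbC G y) := ⟨_, fun _ => rfl⟩
  have hgM : ∀ y, M ⊆ g y := fun y => by
    rw [hg]; exact subset_union_left.trans (c1 _)
  have hgN : ∀ y, NbC G y ⊆ g y := fun y => by
    rw [hg]; exact subset_union_right.trans (c1 _)
  have hgc : ∀ y, Closed G k (g y) := fun y => by rw [hg]; exact c2 _
  have hself : ∀ y, y ∈ g y := fun y => hgN y ((LOC_mem_NbC G y y).2 (Or.inl rfl))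
  have hNb : ∀ y, Nb G y ⊆ g y := fun y w hw =>
    hgN y ((LOC_mem_NbC G y w).2 (Or.inr ((LOC_mem_Nb G y w).1 hw)))
  have hmin : ∀ y N, Closed G k N → M ⊆ N → y ∈ N → Nb G y ⊆ N → g y ⊆ N := by
    intro y N hN hMN hyN hyN'
    rw [hg]
    refine c3 _ _ hN (union_subset hMN ?_)
    intro w hw
    rcases (LOC_mem_NbC G y w).1 hw with h | h
    · rw [h]; exact hyN
    · exact hyN' ((LOC_mem_Nb G y w).2 h)
  have hgain' : ∀ y, (g y \ M).card ≤ r := fun y => by rw [hg]; exact hgain y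
  have full : ∀ N, Closed G k N → ∀ q ∈ N, k + 1 ≤ (Nb G q ∩ N).card → Nb G q ⊆ N := by
    intro N hN q hq hc
    refine hN q hq ?_
    have h1 := card_sdiff_add_card_inter (Nb G q) N
    rw [hreg q] at h1
    omega
  -- A0
  have A0 : ∀ y, y ∉ M → ∃ v ∈ M, G.Adj v y := by
    intro y hy
    by_contra hcon
    push Not at hcon
    have h1 : NbC G y ⊆ g y \ M := by
      intro w hw
      rw [mem_sdiff]
      refine ⟨hgN y hw, fun hwM => ?_⟩
      rcases (LOC_mem_NbC G y w).1 hw with h | h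
      · rw [h] at hwM; exact hy hwM
      · exact hcon w hwM h.symm
    have h2 : (NbC G y).card = r + 1 := by
      unfold NbC
      rw [card_insert_of_notMem, hreg]
      rw [LOC_mem_Nb]
      exact G.loopless.irrefl y
    have h3 := card_le_card h1
    have h4 := hgain' y
    omega
  -- A1
  have A1 : ∀ v ∈ M, ∀ y, y ∉ M → G.Adj v y → k + 1 ≤ (Nb G v \ M).card ∧ Clq G (Nb G v \ M) := by
    intro v hv y hy hvy
    constructor
    · by_contra hcon
      exact hy (hMc v hv (by omega) ((LOC_mem_Nb G v y).2 hvy))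
    · obtain ⟨w, hwM, hw1, hw2⟩ := hMcov v hv
      have hwv : w ≠ v := by
        intro h
        rw [h] at hw2
        exact hy (hw2 ((LOC_mem_Nb G v y).2 hvy))
      have hvw : G.Adj v w := by
        rcases hw1 with h | h
        · exact absurd h hwv
        · exact h
      intro a ha b hb hab
      rw [mem_sdiff, LOC_mem_Nb] at ha hb
      rcases hcf v w a b hvw ha.1 hb.1 (fun h => ha.2 (h ▸ hwM)) (fun h => hb.2 (h ▸ hwM)) hab with
        h | h | h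
      · exact absurd (hw2 ((LOC_mem_Nb G w a).2 h)) ha.2
      · exact absurd (hw2 ((LOC_mem_Nb G w b).2 h)) hb.2
      · exact h
  -- a vertex with the clique B_v in a closed set is full
  have fullB : ∀ v ∈ M, ∀ z, z ∉ M → G.Adj v z → ∀ N, Closed G k N → M ⊆ N → Nb G v \ M ⊆ N →
      Nb G z ⊆ N := by
    intro v hv z hz hvz N hN hMN hBN
    obtain ⟨h1, h2⟩ := A1 v hv z hz hvz
    have hzB : z ∈ Nb G v \ M := mem_sdiff.2 ⟨(LOC_mem_Nb G v z).2 hvz, hz⟩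
    refine full N hN z (hBN hzB) ?_
    have h3 : insert v ((Nb G v \ M).erase z) ⊆ Nb G z ∩ N := by
      intro w hw
      rw [mem_inter, LOC_mem_Nb]
      rcases mem_insert.1 hw with h | h
      · rw [h]; exact ⟨hvz.symm, hMN hv⟩
      · rw [mem_erase] at h
        exact ⟨h2 z hzB w h.2 (Ne.symm h.1), hBN h.2⟩
    have h4 : v ∉ (Nb G v \ M).erase z := by
      intro h
      rw [mem_erase, mem_sdiff] at h
      exact h.2.2 hv
    have h5 := card_le_card h3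
    rw [card_insert_of_notMem h4, card_erase_of_mem hzB] at h5
    omega
  -- A2
  have A2' : ∀ v ∈ M, ∀ y, y ∉ M → G.Adj v y → ∀ z, z ∉ M → G.Adj v z → g z ⊆ g y := by
    intro v hv y hy hvy z hz hvz
    have hcl := (A1 v hv y hy hvy).2
    have hyB : y ∈ Nb G v \ M := mem_sdiff.2 ⟨(LOC_mem_Nb G v y).2 hvy, hy⟩
    have hBN : Nb G v \ M ⊆ g y := by
      intro b hb
      by_cases hby : b = y
      · rw [hby]; exact hself y
      · exact hNb y ((LOC_mem_Nb G y b).2 (hcl y hyB b hb (Ne.symm hby)))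
    have hzB : z ∈ Nb G v \ M := mem_sdiff.2 ⟨(LOC_mem_Nb G v z).2 hvz, hz⟩
    exact hmin z (g y) (hgc y) (hgM y) (hBN hzB) (fullB v hv z hz hvz (g y) (hgc y) (hgM y) hBN)
  have A2 : ∀ v ∈ M, ∀ y, y ∉ M → G.Adj v y → ∀ z, z ∉ M → G.Adj v z → g z = g y := fun v hv y hy
    hvy z hz hvz => Subset.antisymm (A2' v hv y hy hvy z hz hvz) (A2' v hv z hz hvz y hy hvy)
  -- size of the classes
  have Acard : ∀ y, y ∉ M → k + 1 ≤ (univ.filter (fun z => z ∉ M ∧ g z = g y)).card := by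
    intro y hy
    obtain ⟨v, hv, hvy⟩ := A0 y hy
    refine (A1 v hv y hy hvy).1.trans (card_le_card ?_)
    intro z hz
    rw [mem_sdiff, LOC_mem_Nb] at hz
    rw [mem_filter]
    exact ⟨mem_univ _, hz.2, A2 v hv y hy hvy z hz.2 hz.1⟩
  have A3 : ∀ y, y ∉ M → ∀ z, z ∉ M → g y ⊆ g z → g y = g z := by
    intro y hy z hz hyz
    by_contra hne
    have h1 := Acard y hy
    have h2 := Acard z hz
    have h3 : Disjoint (univ.filter (fun w => w ∉ M ∧ g w = g y))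
        (univ.filter (fun w => w ∉ M ∧ g w = g z)) := by
      rw [Finset.disjoint_left]
      intro w hw hw'
      rw [mem_filter] at hw hw'
      exact hne (hw.2.2.symm.trans hw'.2.2)
    have h4 : (univ.filter (fun w => w ∉ M ∧ g w = g y)) ∪
        (univ.filter (fun w => w ∉ M ∧ g w = g z)) ⊆ g z \ M := by
      intro w hw
      rw [mem_union, mem_filter, mem_filter] at hw
      rw [mem_sdiff]
      rcases hw with h | h
      · exact ⟨hyz (h.2.2 ▸ hself w), h.2.1⟩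
      · exact ⟨h.2.2 ▸ hself w, h.2.1⟩
    have h5 := card_le_card h4
    rw [card_union_of_disjoint h3] at h5
    have h6 := hgain' z
    omega
  simp only [← hg]
  have hF : ∀ f, f ∈ univ.filter (fun y => y ∉ M ∧ g y = g x) ↔ f ∉ M ∧ g f = g x := fun f => by
    rw [mem_filter]; simp
  obtain ⟨F, hFdef⟩ : ∃ F, F = univ.filter (fun y => y ∉ M ∧ g y = g x) := ⟨_, rfl⟩
  have hF : ∀ f, f ∈ F ↔ f ∉ M ∧ g f = g x := fun f => by
    rw [hFdef, mem_filter]; simp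
  obtain ⟨P, hPdef⟩ : ∃ P, P = univ.filter (fun c => c ∉ M ∧ g c ≠ g x ∧
      ∃ y, y ∉ M ∧ g y = g x ∧ G.Adj c y) := ⟨_, rfl⟩
  have hP : ∀ c, c ∈ P ↔ c ∉ M ∧ g c ≠ g x ∧ ∃ y, y ∉ M ∧ g y = g x ∧ G.Adj c y := fun c => by
    rw [hPdef, mem_filter]; simp
  obtain ⟨U, hUdef⟩ : ∃ U, U = univ.filter (fun u => u ∈ M ∧
      ∃ y, y ∉ M ∧ g y = g x ∧ G.Adj u y) := ⟨_, rfl⟩
  have hU : ∀ u, u ∈ U ↔ u ∈ M ∧ ∃ y, y ∉ M ∧ g y = g x ∧ G.Adj u y := fun u => by
    rw [hUdef, mem_filter]; simp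
  rw [← hFdef, ← hPdef, ← hUdef]
  have hFN : ∀ f ∈ F, Nb G f ⊆ g x := fun f hf => by
    rw [← ((hF f).1 hf).2]; exact hNb f
  have hFg : ∀ f ∈ F, f ∈ g x := fun f hf => by
    rw [← ((hF f).1 hf).2]; exact hself f
  -- neighbours of u ∈ M adjacent to the class
  have hUF : ∀ u ∈ U, Nb G u \ M ⊆ F := by
    intro u hu b hb
    obtain ⟨huM, y, hy, hyx, huy⟩ := (hU u).1 hu
    rw [mem_sdiff, LOC_mem_Nb] at hb
    rw [hF]
    exact ⟨hb.2, (A2 u huM y hy huy b hb.2 hb.1).trans hyx⟩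
  have hPg : ∀ c ∈ P, c ∈ g x := by
    intro c hc
    obtain ⟨hcM, hcx, y, hy, hyx, hcy⟩ := (hP c).1 hc
    exact hFN y ((hF y).2 ⟨hy, hyx⟩) ((LOC_mem_Nb G y c).2 hcy.symm)
  have hFP : Disjoint F P := by
    rw [Finset.disjoint_left]
    intro w hw hw'
    exact ((hP w).1 hw').2.1 ((hF w).1 hw).2
  refine ⟨by rw [hFdef]; exact Acard x hx, ?_⟩
  refine ⟨hFP, ?_, ?_, ?_, ?_, ?_, ?_, ?_, ?_, ?_, ?_⟩
  · rw [Finset.disjoint_left]
    intro w hw hw'
    exact ((hF w).1 hw).1 ((hU w).1 hw').1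
  · rw [Finset.disjoint_left]
    intro w hw hw'
    exact ((hP w).1 hw).1 ((hU w).1 hw').1
  · rw [← card_union_of_disjoint hFP]
    refine (card_le_card ?_).trans (hgain' x)
    intro w hw
    rw [mem_sdiff]
    rcases mem_union.1 hw with h | h
    · exact ⟨hFg w h, ((hF w).1 h).1⟩
    · exact ⟨hPg w h, ((hP w).1 h).1⟩
  · intro f hf w hw
    rw [LOC_mem_Nb] at hw
    obtain ⟨hfM, hfx⟩ := (hF f).1 hf
    rw [mem_union, mem_union, hU, hF, hP]
    by_cases hwM : w ∈ M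
    · exact Or.inl (Or.inl ⟨hwM, f, hfM, hfx, hw.symm⟩)
    · by_cases hwx : g w = g x
      · exact Or.inl (Or.inr ⟨hwM, hwx⟩)
      · exact Or.inr ⟨hwM, hwx, f, hfM, hfx, hw.symm⟩
  · intro f hf
    obtain ⟨hfM, hfx⟩ := (hF f).1 hf
    obtain ⟨v, hv, hvf⟩ := A0 f hfM
    exact ⟨v, (hU v).2 ⟨hv, f, hfM, hfx, hvf⟩, hvf⟩
  · intro u hu a ha b hb hab
    obtain ⟨huM, y, hy, hyx, huy⟩ := (hU u).1 hu
    rw [mem_inter] at ha hb
    exact (A1 u huM y hy huy).2 a (mem_sdiff.2 ⟨ha.1, ((hF a).1 ha.2).1⟩) b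
      (mem_sdiff.2 ⟨hb.1, ((hF b).1 hb.2).1⟩) hab
  · intro u hu
    obtain ⟨huM, y, hy, hyx, huy⟩ := (hU u).1 hu
    refine (A1 u huM y hy huy).1.trans (card_le_card fun b hb => ?_)
    exact mem_inter.2 ⟨(mem_sdiff.1 hb).1, hUF u hu hb⟩
  · -- A5
    intro c hc a ha b hb hab
    obtain ⟨hcM, hcx, -⟩ := (hP c).1 hc
    rw [mem_inter, LOC_mem_Nb] at ha hb
    have h1 : ¬ Nb G c ⊆ g x := fun h =>
      hcx (A3 c hcM x hx (hmin c (g x) (hgc x) (hgM x) (hPg c hc) h))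
    obtain ⟨d, hd1, hd2⟩ := Finset.not_subset.1 h1
    rw [LOC_mem_Nb] at hd1
    rcases hcf c a b d ha.1 hb.1 hd1 hab (fun h => hd2 (h ▸ hFg a ha.2))
      (fun h => hd2 (h ▸ hFg b hb.2)) with h | h | h
    · exact h
    · exact absurd (hFN a ha.2 ((LOC_mem_Nb G a d).2 h)) hd2
    · exact absurd (hFN b hb.2 ((LOC_mem_Nb G b d).2 h)) hd2
  · -- A4
    intro f hf c hc hfc a ha b hb hab
    obtain ⟨hcM, hcx, -⟩ := (hP c).1 hc
    have key : ∀ e ∈ (Nb G f ∩ U) ∪ ((Nb G f ∩ F) \ Nb G c), G.Adj f e ∧ ¬ G.Adj e c ∧ e ≠ c := by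
      intro e he
      rcases mem_union.1 he with h | h
      · rw [mem_inter, LOC_mem_Nb] at h
        have heM := ((hU e).1 h.2).1
        refine ⟨h.1, fun hec => ?_, fun hec => hcM (hec ▸ heM)⟩
        have := hUF e h.2 (mem_sdiff.2 ⟨(LOC_mem_Nb G e c).2 hec, hcM⟩)
        exact hcx ((hF c).1 this).2
      · rw [mem_sdiff, mem_inter, LOC_mem_Nb, LOC_mem_Nb] at h
        exact ⟨h.1.1, fun hec => h.2 hec.symm, fun hec => hcx (hec ▸ ((hF e).1 h.1.2).2)⟩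
    obtain ⟨a1, a2, a3⟩ := key a ha
    obtain ⟨b1, b2, b3⟩ := key b hb
    rcases hcf f a b c a1 b1 hfc hab a3 b3 with h | h | h
    · exact h
    · exact absurd h a2
    · exact absurd h b2
  · -- A6
    intro c hc u hu
    obtain ⟨hcM, hcx, -⟩ := (hP c).1 hc
    obtain ⟨huM, y, hy, hyx, huy⟩ := (hU u).1 hu
    by_contra hcon
    have h1 : Nb G u \ g c ⊆ (Nb G u ∩ F) \ Nb G c := by
      intro w hw
      rw [mem_sdiff] at hw
      rw [mem_sdiff, mem_inter]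
      exact ⟨⟨hw.1, hUF u hu (mem_sdiff.2 ⟨hw.1, fun h => hw.2 (hgM c h)⟩)⟩, fun h => hw.2 (hNb c h)⟩
    have h2 := card_le_card h1
    have h3 : Nb G u ⊆ g c := hgc c u (hgM c huM) (by omega)
    have h4 : Nb G y ⊆ g c := fullB u huM y hy huy (g c) (hgc c) (hgM c) (sdiff_subset.trans h3)
    have h5 : g y ⊆ g c := hmin y (g c) (hgc c) (hgM c) (h3 ((LOC_mem_Nb G u y).2 huy)) h4
    exact hcx ((A3 y hy c hcM h5).symm.trans hyx)

end Pool.Agent.T2h75.PD
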