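import Pool.Agent.T2h75.PD.Stm

/-!
# MIN: the main lemma from the impossibility of `Conf`
-/

set_option autoImplicit false

namespace Pool.Agent.T2h75.PD
open Classical Finset

theorem t_MIN : S_MIN := by
  intro H V _ G K r hr hreg F P U hL b0 hb0 hb0P P' hP'
  induction P' using Finset.strongInduction with
  | H P' ih =>
    intro u hu
    by_contra hcon
    push Not at hcon
    have mNb : ∀ a b, b ∈ Nb G a ↔ G.Adj a b := by intro a b; simp [Nb]
    -- private neighbours
    have key : ∀ c ∈ P', ∃ f ∈ Nb G u ∩ F, G.Adj f c ∧ ∀ d ∈ P', d ≠ c → ¬ G.Adj f d := by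
      intro c hc
      have h1 := ih (P'.erase c) (Finset.erase_ssubset hc)
        ((Finset.erase_subset _ _).trans hP') u hu
      by_contra hno
      push Not at hno
      have h2 : (Nb G u ∩ F).filter (fun b => ∀ d ∈ P'.erase c, ¬ G.Adj b d) ⊆
          (Nb G u ∩ F).filter (fun b => ∀ d ∈ P', ¬ G.Adj b d) := by
        intro b hb
        rw [Finset.mem_filter] at hb ⊢
        refine ⟨hb.1, fun d hd => ?_⟩
        by_cases hdc : d = c
        · subst hdc
          intro hbd
          obtain ⟨e, he, hne, hbe⟩ := hno b hb.1 hbd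
          exact hb.2 e (Finset.mem_erase.2 ⟨hne, he⟩) hbe
        · exact hb.2 d (Finset.mem_erase.2 ⟨hdc, hd⟩)
      have h3 := Finset.card_le_card h2
      omega
    -- at least two elements
    have hcard : 1 < P'.card := by
      by_contra hle
      push Not at hle
      rcases Nat.lt_or_ge 0 P'.card with h0 | h0
      · have h1 : P'.card = 1 := by omega
        obtain ⟨c, rfl⟩ := Finset.card_eq_one.1 h1
        have hc : c ∈ P := hP' (Finset.mem_singleton_self c)
        have h2 := hL.A6 c hc u hu
        have h3 : (Nb G u ∩ F) \ Nb G c ⊆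
            (Nb G u ∩ F).filter (fun b => ∀ d ∈ ({c} : Finset V), ¬ G.Adj b d) := by
          intro b hb
          rw [Finset.mem_sdiff] at hb
          rw [Finset.mem_filter]
          refine ⟨hb.1, fun d hd hbd => ?_⟩
          rw [Finset.mem_singleton] at hd
          subst hd
          exact hb.2 ((mNb _ _).2 hbd.symm)
        have h4 := Finset.card_le_card h3
        omega
      · have h1 : P' = ∅ := Finset.card_eq_zero.1 (by omega)
        subst h1
        have h2 := hL.Bcard u hu
        have h3 : Nb G u ∩ F ⊆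
            (Nb G u ∩ F).filter (fun b => ∀ d ∈ (∅ : Finset V), ¬ G.Adj b d) := by
          intro b hb
          rw [Finset.mem_filter]
          exact ⟨hb, fun d hd => absurd hd (Finset.notMem_empty d)⟩
        have h4 := Finset.card_le_card h3
        omega
    obtain ⟨c, hc, c', hc', hcc⟩ := Finset.one_lt_card.1 hcard
    obtain ⟨f, hf, hfc, hfp⟩ := key c hc
    obtain ⟨f', hf', hfc', hfp'⟩ := key c' hc'
    rcases le_total (Nb G f ∩ P).card (Nb G f' ∩ P).card with h | h
    · exact H G K r F P U P' b0 u c c' f f' ⟨hL, hreg, hr, hb0, hb0P, hP', hu, hc, hc', hcc,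
        hf, hf', hfc, hfc', hfp, hfp', hcon⟩ h
    · exact H G K r F P U P' b0 u c' c f' f ⟨hL, hreg, hr, hb0, hb0P, hP', hu, hc', hc,
        hcc.symm, hf', hf, hfc', hfc, hfp', hfp, hcon⟩ h

end Pool.Agent.T2h75.PD
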