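import Pool.Agent.T2h75.PD.Stm

/-!
# Project PD, task NON
-/

namespace Pool.Agent.T2h75.PD
open Classical Finset

theorem non_mem_Nb {V : Type} [Fintype V] (G : SimpleGraph V) (v w : V) :
    w ∈ Nb G v ↔ G.Adj v w := by
  simp [Nb]

theorem t_NON : S_NON := by
  intro V _ G K r F P U P' b0 u c c' f f' hc hf hp hDEG y0 hy0F hy0u hy0c
  by_contra hy0c'
  have hL := hc.loc
  have hcP : c ∈ P := hc.P'P hc.cP'
  have huf' : G.Adj u f' := (non_mem_Nb G u f').1 (mem_inter.1 hc.f'B).1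
  have hf'F : f' ∈ F := (mem_inter.1 hc.f'B).2
  obtain ⟨X, hXd⟩ : ∃ X : Finset V, X = (Nb G u ∩ F).filter (fun b => ∀ d ∈ P', ¬ G.Adj b d) :=
    ⟨_, rfl⟩
  have hXmem : ∀ b, b ∈ X ↔ (G.Adj u b ∧ b ∈ F) ∧ ∀ d ∈ P', ¬ G.Adj b d := by
    intro b
    rw [hXd, mem_filter, mem_inter, non_mem_Nb]
  have hXc : X.card + 1 ≤ K := by
    rw [hXd]
    exact hc.hX
  obtain ⟨N1, hN1d⟩ : ∃ N1 : Finset V,
    N1 = F.filter (fun y => ¬ G.Adj u y ∧ G.Adj y c ∧ ¬ G.Adj y c') := ⟨_, rfl⟩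
  have hNmem : ∀ y, y ∈ N1 ↔ y ∈ F ∧ ¬ G.Adj u y ∧ G.Adj y c ∧ ¬ G.Adj y c' := by
    intro y
    rw [hN1d, mem_filter]
  obtain ⟨C, hCd⟩ : ∃ C : Finset V, C = F \ Nb G c := ⟨_, rfl⟩
  have hCmem : ∀ y, y ∈ C ↔ y ∈ F ∧ ¬ G.Adj c y := by
    intro y
    rw [hCd, mem_sdiff, non_mem_Nb]
  obtain ⟨Z, hZd⟩ : ∃ Z : V → Finset V, ∀ y, Z y = (Nb G y ∩ F) \ Nb G c := ⟨_, fun _ => rfl⟩
  have hZmem : ∀ y z, z ∈ Z y ↔ (G.Adj y z ∧ z ∈ F) ∧ ¬ G.Adj c z := by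
    intro y z
    rw [hZd, mem_sdiff, mem_inter, non_mem_Nb, non_mem_Nb]
  have hZC : ∀ y, Z y ⊆ C := by
    intro y z hz
    rw [hZmem] at hz
    exact (hCmem z).2 ⟨hz.1.2, hz.2⟩
  have ha : ∀ y ∈ F, ¬ G.Adj u y → G.Adj y c → G.Adj y c' → ∀ b ∈ X, G.Adj y b := by
    intro y hyF hyu hyc hyc' b hb
    rw [hXmem] at hb
    have hyf' : G.Adj y f' := (hf.B4' y hyF hyu).2 hyc'
    have h1 := hf.B3 y hyF c hc.cP' hyc (Or.inr ⟨hyf', hc.cc'⟩)
    obtain ⟨w, hwU, hwy⟩ := hL.hU y hyF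
    have hw1 : w ∈ Nb G y ∩ U := mem_inter.2 ⟨(non_mem_Nb G y w).2 hwy.symm, hwU⟩
    have hw2 : w ∈ Nb G b ∩ U :=
      hf.U0b b (mem_inter.2 ⟨(non_mem_Nb G u b).2 hb.1.1, hb.1.2⟩) hb.2 (h1 hw1)
    have hwb : G.Adj b w := (non_mem_Nb G b w).1 (mem_inter.1 hw2).1
    refine hL.Bclq w hwU y (mem_inter.2 ⟨(non_mem_Nb G w y).2 hwy, hyF⟩) b
      (mem_inter.2 ⟨(non_mem_Nb G w b).2 hwb.symm, hb.1.2⟩) ?_
    rintro rfl
    exact hyu hb.1.1
  have hb1 : ∀ y ∈ N1, ∀ w ∈ U, G.Adj y w → ¬ G.Adj f w := by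
    intro y hy w hw hyw
    rw [hNmem] at hy
    exact hf.B4U' y hy.1 hy.2.1 hy.2.2.2 w hw hyw
  have hb2 : ∀ y ∈ N1, ∀ w ∈ U, G.Adj y w → ∀ z, z ∈ Z y ↔
      (G.Adj w z ∧ z ∈ F) ∧ ¬ G.Adj c z := by
    intro y hy w hw hyw z
    rw [hNmem] at hy
    rw [hZmem]
    constructor
    · rintro ⟨⟨hyz, hzF⟩, hcz⟩
      refine ⟨⟨?_, hzF⟩, hcz⟩
      refine hL.A4 y hy.1 c hcP hy.2.2.1 w
        (mem_union_left _ (mem_inter.2 ⟨(non_mem_Nb G y w).2 hyw, hw⟩)) z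
        (mem_union_right _ (mem_sdiff.2 ⟨mem_inter.2 ⟨(non_mem_Nb G y z).2 hyz, hzF⟩,
          fun h => hcz ((non_mem_Nb G c z).1 h)⟩)) ?_
      rintro rfl
      exact disjoint_left.1 hL.hFU hzF hw
    · rintro ⟨⟨hwz, hzF⟩, hcz⟩
      refine ⟨⟨?_, hzF⟩, hcz⟩
      refine hL.Bclq w hw y (mem_inter.2 ⟨(non_mem_Nb G w y).2 hyw.symm, hy.1⟩) z
        (mem_inter.2 ⟨(non_mem_Nb G w z).2 hwz, hzF⟩) ?_
      rintro rfl
      exact hcz hy.2.2.1.symm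
  have hwex : ∀ y ∈ N1, ∃ w ∈ U, G.Adj y w := by
    intro y hy
    obtain ⟨w, hw, hwy⟩ := hL.hU y ((hNmem y).1 hy).1
    exact ⟨w, hw, hwy.symm⟩
  have hb3 : ∀ y ∈ N1, K ≤ (Z y).card := by
    intro y hy
    obtain ⟨w, hw, hyw⟩ := hwex y hy
    have h1 := hL.A6 c hcP w hw
    have h2 : (Nb G w ∩ F) \ Nb G c = Z y := by
      ext z
      rw [hb2 y hy w hw hyw z, mem_sdiff, mem_inter, non_mem_Nb, non_mem_Nb]
    rwa [h2] at h1
  have hb4 : ∀ y ∈ N1, ∀ z ∈ Z y, G.Adj u z → z ∈ X := by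
    intro y hy z hz huz
    obtain ⟨w, hw, hyw⟩ := hwex y hy
    have h1 := (hb2 y hy w hw hyw z).1 hz
    rw [hXmem]
    exact ⟨⟨huz, h1.1.2⟩, hf.B3' w hw (hb1 y hy w hw hyw) z
      (mem_inter.2 ⟨(non_mem_Nb G w z).2 h1.1.1, h1.1.2⟩) huz⟩
  have hb5 : ∀ y ∈ N1, ∀ z ∈ Z y, ∀ z' ∈ Z y, z ≠ z' → G.Adj z z' := by
    intro y hy z hz z' hz' hne
    obtain ⟨w, hw, hyw⟩ := hwex y hy
    have h1 := (hb2 y hy w hw hyw z).1 hz
    have h2 := (hb2 y hy w hw hyw z').1 hz'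
    exact hL.Bclq w hw z (mem_inter.2 ⟨(non_mem_Nb G w z).2 h1.1.1, h1.1.2⟩) z'
      (mem_inter.2 ⟨(non_mem_Nb G w z').2 h2.1.1, h2.1.2⟩) hne
  have hCF : C.card + (Nb G c ∩ F).card = F.card := by
    rw [hCd, inter_comm]
    exact card_sdiff_add_card_inter F (Nb G c)
  -- (c)
  have hcc : ∀ y ∈ N1, C.card + 1 + (Nb G f' ∩ P).card ≤ (Nb G y ∩ U).card + (Z y).card := by
    intro y hy
    have hy' := (hNmem y).1 hy
    have hyc : y ∈ Nb G c ∩ F := mem_inter.2 ⟨(non_mem_Nb G c y).2 hy'.2.2.1.symm, hy'.1⟩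
    have h1 : (Nb G y ∩ F).card ≤ (Z y).card + ((Nb G c ∩ F).erase y).card := by
      refine (card_le_card ?_).trans (card_union_le _ _)
      intro z hz
      rw [mem_inter, non_mem_Nb] at hz
      by_cases hcz : G.Adj c z
      · exact mem_union_right _ (mem_erase.2 ⟨hz.1.ne', mem_inter.2 ⟨(non_mem_Nb G c z).2 hcz, hz.2⟩⟩)
      · exact mem_union_left _ ((hZmem y z).2 ⟨hz, hcz⟩)
    rw [card_erase_of_mem hyc] at h1
    have h2 : 0 < (Nb G c ∩ F).card := card_pos.2 ⟨y, hyc⟩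
    have h3 : r ≤ (Nb G y ∩ U).card + (Nb G y ∩ F).card + (Nb G y ∩ P).card := by
      rw [← hc.reg y]
      refine (card_le_card (t := (Nb G y ∩ U) ∪ (Nb G y ∩ F) ∪ (Nb G y ∩ P)) ?_).trans
        ((card_union_le _ _).trans (Nat.add_le_add_right (card_union_le _ _) _))
      intro z hz
      have h4 := hL.nb y hy'.1 hz
      rw [mem_union, mem_union] at h4 ⊢
      rcases h4 with (h4 | h4) | h4
      · exact Or.inl (Or.inl (mem_inter.2 ⟨hz, h4⟩))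
      · exact Or.inl (Or.inr (mem_inter.2 ⟨hz, h4⟩))
      · exact Or.inr (mem_inter.2 ⟨hz, h4⟩)
    have h4 : (Nb G y ∩ P).card + (Nb G f' ∩ P).card ≤ P.card := by
      rw [← card_union_of_disjoint]
      · apply card_le_card
        exact union_subset inter_subset_right inter_subset_right
      · rw [disjoint_left]
        intro d hd hd'
        rw [mem_inter, non_mem_Nb] at hd hd'
        have h5 : G.Adj y f' := by
          refine hL.A5 d hd.2 y (mem_inter.2 ⟨(non_mem_Nb G d y).2 hd.1.symm, hy'.1⟩) f'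
            (mem_inter.2 ⟨(non_mem_Nb G d f').2 hd'.1.symm, hf'F⟩) ?_
          rintro rfl
          exact hy'.2.1 huf'
        exact hy'.2.2.2 ((hf.B4' y hy'.1 hy'.2.1).1 h5)
    have h5 := hL.card
    omega
  -- (d)
  have hdd : ∀ y ∈ N1, ∀ b ∈ Z y, G.Adj u b → C.card + 2 ≤
      (N1.filter (fun y' => ¬ G.Adj y' b)).card + (Z y).card := by
    intro y hy b hb hub
    have hbX := hb4 y hy b hb hub
    have hbX' := (hXmem b).1 hbX
    have h1 := hDEG b (mem_inter.2 ⟨(non_mem_Nb G u b).2 hub, hbX'.1.2⟩) hbX'.2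
    have h2 : (Nb G y ∩ U).card ≤ (U.filter (fun w => G.Adj b w ∧ ¬ G.Adj f w)).card := by
      apply card_le_card
      intro w hw
      rw [mem_inter, non_mem_Nb] at hw
      rw [mem_filter]
      exact ⟨hw.2, (((hb2 y hy w hw.2 hw.1 b).1 hb).1.1).symm, hb1 y hy w hw.2 hw.1⟩
    have h3 : (Z y).card ≤ X.card +
        (F.filter (fun y => ¬ G.Adj u y ∧ ¬ G.Adj y c ∧ G.Adj y b)).card := by
      refine (card_le_card ?_).trans (card_union_le _ _)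
      intro z hz
      by_cases huz : G.Adj u z
      · exact mem_union_left _ (hb4 y hy z hz huz)
      · refine mem_union_right _ (mem_filter.2 ⟨((hZmem y z).1 hz).1.2, huz,
          fun h => ((hZmem y z).1 hz).2 h.symm, hb5 y hy z hz b hb ?_⟩)
        rintro rfl
        exact huz hub
    have h4 := hb3 y hy
    have h5 := hcc y hy
    have h6 : (F.filter (fun y => ¬ G.Adj u y ∧ G.Adj y c ∧ ¬ G.Adj y b)).card ≤
        (N1.filter (fun y' => ¬ G.Adj y' b)).card := by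
      apply card_le_card
      intro z hz
      rw [mem_filter] at hz ⊢
      refine ⟨(hNmem z).2 ⟨hz.1, hz.2.1, hz.2.2.1, ?_⟩, hz.2.2.2⟩
      intro hzc'
      exact hz.2.2.2 (ha z hz.1 hz.2.1 hz.2.2.1 hzc' b hbX)
    omega
  -- (e)
  obtain ⟨y, hy, hymin⟩ := exists_min_image N1 (fun y => (Z y).card)
    ⟨y0, (hNmem y0).2 ⟨hy0F, hy0u, hy0c, hy0c'⟩⟩
  obtain ⟨h, hh⟩ : ∃ h, C.card = (Z y).card + h :=
    ⟨C.card - (Z y).card, by have := card_le_card (hZC y); omega⟩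
  obtain ⟨A, hAd⟩ : ∃ A : Finset V, A = (Z y).filter (fun b => G.Adj u b) := ⟨_, rfl⟩
  have hAmem : ∀ b, b ∈ A ↔ b ∈ Z y ∧ G.Adj u b := by
    intro b
    rw [hAd, mem_filter]
  have hS1 : A.card * (h + 2) ≤ ∑ b ∈ A, (N1.filter (fun y' => ¬ G.Adj y' b)).card := by
    rw [← smul_eq_mul]
    apply card_nsmul_le_sum
    intro b hb
    rw [hAmem] at hb
    have := hdd y hy b hb.1 hb.2
    omega
  have hS2 : ∑ b ∈ A, (N1.filter (fun y' => ¬ G.Adj y' b)).card =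
      ∑ y' ∈ N1, (A.filter (fun b => ¬ G.Adj y' b)).card := by
    simp only [card_filter]
    exact sum_comm
  have hS3 : ∑ y' ∈ N1, (A.filter (fun b => ¬ G.Adj y' b)).card ≤ N1.card * h := by
    rw [← smul_eq_mul]
    apply sum_le_card_nsmul
    intro y' hy'
    have h1 : (A.filter (fun b => ¬ G.Adj y' b)).card ≤ (C \ Z y').card := by
      apply card_le_card
      intro b hb
      rw [mem_filter, hAmem] at hb
      rw [mem_sdiff, hZmem]
      exact ⟨hZC y hb.1.1, fun h => hb.2 h.1.1⟩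
    have h2 : (C \ Z y').card + (Z y').card = C.card := card_sdiff_add_card_eq_card (hZC y')
    have h3 := hymin y' hy'
    omega
  have hA : (Nb G c ∩ F).card + 1 ≤ A.card := by
    have h1 := hL.A6 c hcP u hc.uU
    have h2 := hb3 y hy
    have h3 : ((Nb G u ∩ F) \ Nb G c) ∪ Z y ⊆ C := by
      refine union_subset ?_ (hZC y)
      intro z hz
      rw [mem_sdiff, mem_inter, non_mem_Nb, non_mem_Nb] at hz
      exact (hCmem z).2 ⟨hz.1.2, hz.2⟩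
    have h4 : ((Nb G u ∩ F) \ Nb G c) ∩ Z y ⊆ A := by
      intro z hz
      rw [mem_inter, mem_sdiff, mem_inter, non_mem_Nb, non_mem_Nb] at hz
      exact (hAmem z).2 ⟨hz.2, hz.1.1.1⟩
    have h5 := card_union_add_card_inter ((Nb G u ∩ F) \ Nb G c) (Z y)
    have h6 := card_le_card h3
    have h7 := card_le_card h4
    have h8 := hL.card
    have h9 := hc.hr
    omega
  have hN : N1.card ≤ (Nb G c ∩ F).card := by
    apply card_le_card
    intro z hz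
    rw [hNmem] at hz
    exact mem_inter.2 ⟨(non_mem_Nb G c z).2 hz.2.2.1.symm, hz.1⟩
  have hfin : A.card * (h + 2) ≤ N1.card * h := (hS1.trans hS2.le).trans hS3
  have h1 : N1.card + 1 ≤ A.card := by omega
  nlinarith

end Pool.Agent.T2h75.PD
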