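import Pool.Agent.T2h75.PD.Fin
import Pool.Agent.T2h75.PD.Low
import Pool.Agent.T2h75.PD.T_CLO
import Pool.Agent.T2h75.PD.T_ASM
import Pool.Agent.T2h75.PD.T_CNT
import Pool.Agent.T2h75.PD.T_DEG
import Pool.Agent.T2h75.PD.T_FCT
import Pool.Agent.T2h75.PD.T_FIN
import Pool.Agent.T2h75.PD.T_LF0
import Pool.Agent.T2h75.PD.T_LFL
import Pool.Agent.T2h75.PD.T_LOC
import Pool.Agent.T2h75.PD.T_MIN
import Pool.Agent.T2h75.PD.T_NON
import Pool.Agent.T2h75.PD.T_W0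

namespace Pool.Agent.T2h75.PD
open Classical Finset

theorem upper_all {V : Type} [Fintype V] (G : SimpleGraph V) (k r : ℕ) (hr : r ≤ 2 * k + 1)
    (hreg : ∀ v, (Nb G v).card = r) (hcf : ClawFree G) :
    ∃ S : Finset V, cl G k (S.biUnion (NbC G)) = univ ∧ (r + 1) * S.card ≤ Fintype.card V :=
  upper t_CLO t_LF0 t_ASM (t_LOC t_CLO) t_CNT t_MIN t_FCT t_W0 t_DEG t_NON t_FIN t_LFL G k r hr
    hreg hcf

end Pool.Agent.T2h75.PD
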