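import Pool.Agent.T2h75.PD.Stm

namespace Pool.Agent.T2h75.PD
open Classical Finset

theorem conf_false (hFCT : S_FCT) (hW0 : S_W0) (hDEG : S_DEG) (hNON : S_NON) (hFIN : S_FIN)
    {V : Type} [Fintype V] (G : SimpleGraph V) (K r : ℕ) (F P U P' : Finset V)
    (b0 u c c' f f' : V) (h : Conf G K r F P U P' b0 u c c' f f')
    (hp : (Nb G f ∩ P).card ≤ (Nb G f' ∩ P).card) : False := by
  have hf := hFCT G K r F P U P' b0 u c c' f f' h
  have hw := hW0 G K r F P U P' b0 u c c' f f' h hf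
  have hd := hDEG G K r F P U P' b0 u c c' f f' h hf
  have hn := hNON G K r F P U P' b0 u c c' f f' h hf hp hd
  exact hFIN G K r F P U P' b0 u c c' f f' h hf hw hd hn

theorem claim_all (hLOC : S_LOC) (hCNT : S_CNT) (hMIN : S_MIN) (hFCT : S_FCT) (hW0 : S_W0)
    (hDEG : S_DEG) (hNON : S_NON) (hFIN : S_FIN) (hLFL : S_LFL)
    {V : Type} [Fintype V] (G : SimpleGraph V) (k r : ℕ) (hr : r ≤ 2 * k + 1)
    (hreg : ∀ v, (Nb G v).card = r) (hcf : ClawFree G) : Claim G k r := by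
  intro M hM hcov hne hg
  have hloc := hLOC G k r hr hreg hcf M hM hcov hg
  obtain ⟨x, hx, hxP⟩ := hCNT G (k + 1) r (by omega) M (fun y => cl G k (M ∪ NbC G y)) hne
    (fun x hx => by convert (hloc x hx).1) (fun x hx => by convert (hloc x hx).2.card)
  have hL := (hloc x hx).2
  have hxF : x ∈ univ.filter (fun y => y ∉ M ∧ cl G k (M ∪ NbC G y) = cl G k (M ∪ NbC G x)) := by
    simp [hx]
  have hb0 : ∀ c ∈ univ.filter (fun c => c ∉ M ∧ cl G k (M ∪ NbC G c) ≠ cl G k (M ∪ NbC G x) ∧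
      ∃ y, y ∉ M ∧ cl G k (M ∪ NbC G y) = cl G k (M ∪ NbC G x) ∧ G.Adj c y), ¬ G.Adj x c := by
    intro c hc
    rw [Finset.mem_filter] at hc
    exact hxP c hc.2.1 hc.2.2.1
  have hmain := hMIN (conf_false hFCT hW0 hDEG hNON hFIN) G (k + 1) r (by omega) hreg _ _ _ hL x
    hxF hb0 _ (Finset.Subset.refl _)
  refine ⟨_, hLFL G k r _ _ _ hL x hxF hmain, ?_⟩
  rw [Finset.disjoint_left]
  intro y hy
  rw [Finset.mem_filter, Finset.mem_filter] at hy
  exact hy.1.2.1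

theorem upper (hCLO : S_CLO) (hLF0 : S_LF0) (hASM : S_CLO → S_LF0 → S_ASM)
    (hLOC : S_LOC) (hCNT : S_CNT) (hMIN : S_MIN) (hFCT : S_FCT) (hW0 : S_W0)
    (hDEG : S_DEG) (hNON : S_NON) (hFIN : S_FIN) (hLFL : S_LFL)
    {V : Type} [Fintype V] (G : SimpleGraph V) (k r : ℕ) (hr : r ≤ 2 * k + 1)
    (hreg : ∀ v, (Nb G v).card = r) (hcf : ClawFree G) :
    ∃ S : Finset V, cl G k (S.biUnion (NbC G)) = univ ∧ (r + 1) * S.card ≤ Fintype.card V :=
  hASM hCLO hLF0 G k r hr hreg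
    (claim_all hLOC hCNT hMIN hFCT hW0 hDEG hNON hFIN hLFL G k r hr hreg hcf)

end Pool.Agent.T2h75.PD
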