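import Pool.Agent.T2h75.PD.Stm

namespace Pool.Agent.T2h75.PD
open Classical Finset

theorem t_FIN_h44 : S_FIN := by
  intro V _ G K r F P U P' b0 u c c' f f' h hF hW0 hDEG hNON
  have memNb : ∀ a b : V, b ∈ Nb G a ↔ G.Adj a b := by
    intro a b
    simp [Nb]
  have hfB : f ∈ Nb G u ∩ F := h.fB
  have hfF : f ∈ F := (mem_inter.1 hfB).2
  have huf : G.Adj u f := (memNb u f).1 (mem_inter.1 hfB).1
  have hcP : c ∈ P := h.P'P h.cP'
  obtain ⟨p, hp⟩ : ∃ p, p = (Nb G f ∩ P).card := ⟨_, rfl⟩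
  have hp1 : 1 ≤ p := by
    rw [hp]
    exact card_pos.2 ⟨c, mem_inter.2 ⟨(memNb f c).2 h.fc, hcP⟩⟩
  have hBK : K ≤ (Nb G u ∩ F).card := h.loc.Bcard u h.uU
  have hFK : K ≤ F.card := hBK.trans (card_le_card inter_subset_right)
  have hr := h.hr
  have hcard := h.loc.card
  have hpP : p ≤ P.card := by
    rw [hp]; exact card_le_card inter_subset_right
  have hpK : p ≤ K := by omega
  -- (a)
  have ha : ∀ y ∈ F, ¬ G.Adj u y → G.Adj y c → Nb G y ∩ U ⊆ Nb G f ∩ U := by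
    intro y hy huy hyc
    have hyc' := hNON y hy huy hyc
    have hyf' := (hF.B4' y hy huy).2 hyc'
    exact hF.B3 y hy c h.cP' hyc (Or.inr ⟨hyf', h.cc'⟩)
  have ha2 : ∀ y ∈ F, ¬ G.Adj u y → G.Adj y c → ∀ b ∈ Nb G u ∩ F,
      (∀ d ∈ P', ¬ G.Adj b d) → G.Adj y b := by
    intro y hy huy hyc b hb hbP
    obtain ⟨w, hw, hwy⟩ := h.loc.hU y hy
    have h1 : w ∈ Nb G f ∩ U := ha y hy huy hyc (mem_inter.2 ⟨(memNb y w).2 hwy.symm, hw⟩)
    have h2 : w ∈ Nb G b ∩ U := hF.U0b b hb hbP h1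
    have hbw : G.Adj b w := (memNb b w).1 (mem_inter.1 h2).1
    have hne : y ≠ b := by
      rintro rfl
      exact huy ((memNb u y).1 (mem_inter.1 hb).1)
    exact h.loc.Bclq w hw y (mem_inter.2 ⟨(memNb w y).2 hwy, hy⟩) b
      (mem_inter.2 ⟨(memNb w b).2 hbw.symm, (mem_inter.1 hb).2⟩) hne
  -- degree equation, simplified
  have hD : ∀ b ∈ Nb G u ∩ F, (∀ d ∈ P', ¬ G.Adj b d) →
      (U.filter (fun w => G.Adj b w ∧ ¬ G.Adj f w)).card +
      (F.filter (fun y => ¬ G.Adj u y ∧ ¬ G.Adj y c ∧ G.Adj y b)).card ≤ p := by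
    intro b hb hbP
    have h1 := hDEG b hb hbP
    have h2 : (F.filter (fun y => ¬ G.Adj u y ∧ G.Adj y c ∧ ¬ G.Adj y b)).card = 0 := by
      rw [card_eq_zero, filter_eq_empty_iff]
      rintro y hy ⟨h3, h4, h5⟩
      exact h5 (ha2 y hy h3 h4 b hb hbP)
    rw [h2] at h1
    omega
  set W : Finset V := U.filter (fun w => ¬ G.Adj f w) with hWdef
  set X' : Finset V := (Nb G u ∩ F).filter (fun b => ∀ d ∈ P', ¬ G.Adj b d) with hX'def
  have hX' : X'.card + 1 ≤ K := h.hX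
  let X : V → Finset V := fun w => (Nb G w ∩ F).filter (fun b => G.Adj u b)
  let Q : V → Finset V := fun w => (Nb G w ∩ F).filter (fun b => ¬ G.Adj u b)
  have hXQ : ∀ w, (X w).card + (Q w).card = (Nb G w ∩ F).card := by
    intro w
    exact card_filter_add_card_filter_not (s := Nb G w ∩ F) (fun b => G.Adj u b)
  have hXX' : ∀ w ∈ W, X w ⊆ X' := by
    intro w hw b hb
    rw [hWdef, mem_filter] at hw
    have hb' := mem_filter.1 hb
    rw [hX'def, mem_filter]
    exact ⟨mem_inter.2 ⟨(memNb u b).2 hb'.2, (mem_inter.1 hb'.1).2⟩,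
      hF.B3' w hw.1 hw.2 b hb'.1 hb'.2⟩
  have hQc : ∀ w ∈ W, ∀ y ∈ Q w, ¬ G.Adj y c := by
    intro w hw y hy hyc
    rw [hWdef, mem_filter] at hw
    have hy' := mem_filter.1 hy
    have hyF := (mem_inter.1 hy'.1).2
    have hwy : G.Adj w y := (memNb w y).1 (mem_inter.1 hy'.1).1
    have h1 : w ∈ Nb G f ∩ U := ha y hyF hy'.2 hyc (mem_inter.2 ⟨(memNb y w).2 hwy.symm, hw.1⟩)
    exact hw.2 ((memNb f w).1 (mem_inter.1 h1).1)
  have hKw : ∀ w ∈ W, K ≤ (X w).card + (Q w).card := by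
    intro w hw
    rw [hXQ]
    exact h.loc.Bcard w (mem_filter.1 hw).1
  have hQ1 : ∀ w ∈ W, 1 ≤ (Q w).card := by
    intro w hw
    have h1 := hKw w hw
    have h2 := card_le_card (hXX' w hw)
    omega
  -- X w nonempty
  have hX1 : ∀ w ∈ W, (X w).Nonempty := by
    intro w hw
    by_contra hne
    rw [not_nonempty_iff_eq_empty] at hne
    have hdis : Disjoint (Nb G w ∩ F) (Nb G u ∩ F) := by
      rw [Finset.disjoint_left]
      intro z hz hz2
      have : z ∈ X w := mem_filter.2 ⟨hz, (memNb u z).1 (mem_inter.1 hz2).1⟩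
      rw [hne] at this
      exact absurd this (notMem_empty z)
    have h1 := card_union_of_disjoint hdis
    have h2 : ((Nb G w ∩ F) ∪ (Nb G u ∩ F)).card ≤ F.card :=
      card_le_card (union_subset inter_subset_right inter_subset_right)
    have h3 := h.loc.Bcard w (mem_filter.1 hw).1
    omega
  -- (d)
  have hd : ∀ w ∈ W, ∀ b ∈ X w,
      (U.filter (fun w => G.Adj b w ∧ ¬ G.Adj f w)).card + (Q w).card ≤ p := by
    intro w hw b hb
    have hbX' := hXX' w hw hb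
    rw [hX'def, mem_filter] at hbX'
    have h1 := hD b hbX'.1 hbX'.2
    have hb' := mem_filter.1 hb
    have h2 : Q w ⊆ F.filter (fun y => ¬ G.Adj u y ∧ ¬ G.Adj y c ∧ G.Adj y b) := by
      intro y hy
      have hy' := mem_filter.1 hy
      have hyF := (mem_inter.1 hy'.1).2
      rw [mem_filter]
      refine ⟨hyF, hy'.2, hQc w hw y hy, ?_⟩
      have hne : y ≠ b := by
        rintro rfl
        exact hy'.2 hb'.2
      exact h.loc.Bclq w (mem_filter.1 hw).1 y hy'.1 b hb'.1 hne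
    have h3 := card_le_card h2
    omega
  -- membership of w in W_b
  have hwb : ∀ w ∈ W, ∀ b ∈ X w, w ∈ U.filter (fun w => G.Adj b w ∧ ¬ G.Adj f w) := by
    intro w hw b hb
    have hw' := mem_filter.1 hw
    have hb' := mem_filter.1 hb
    rw [mem_filter]
    exact ⟨hw'.1, ((memNb w b).1 (mem_inter.1 hb'.1).1).symm, hw'.2⟩
  have hqp : ∀ w ∈ W, (Q w).card + 1 ≤ p := by
    intro w hw
    obtain ⟨b, hb⟩ := hX1 w hw
    have h1 := hd w hw b hb
    have h2 : 1 ≤ (U.filter (fun w => G.Adj b w ∧ ¬ G.Adj f w)).card :=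
      card_pos.2 ⟨w, hwb w hw b hb⟩
    omega
  -- (c)
  have hWcard : p + 2 ≤ W.card := by
    obtain ⟨w, hwU, hwf⟩ := hW0
    have hw : w ∈ W := by
      rw [hWdef, mem_filter]; exact ⟨hwU, hwf⟩
    obtain ⟨y, hy⟩ := card_pos.1 (hQ1 w hw)
    have hy' := mem_filter.1 hy
    have hyF := (mem_inter.1 hy'.1).2
    have hyc := hQc w hw y hy
    have hyf : ¬ G.Adj y f := fun hh => hyc ((hF.B4 y hyF hy'.2).1 hh)
    have hyne : y ≠ f := by
      rintro rfl
      exact hy'.2 huf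
    have h1 : Nb G y ⊆ (Nb G y ∩ U) ∪ (((F.erase y).erase f) ∪ (P \ (Nb G f ∩ P))) := by
      intro z hz
      have hz2 := h.loc.nb y hyF hz
      have hyz : G.Adj y z := (memNb y z).1 hz
      rw [mem_union, mem_union] at hz2
      rw [mem_union, mem_union]
      rcases hz2 with (hz2 | hz2) | hz2
      · exact Or.inl (mem_inter.2 ⟨hz, hz2⟩)
      · refine Or.inr (Or.inl ?_)
        rw [mem_erase, mem_erase]
        refine ⟨?_, hyz.ne', hz2⟩
        rintro rfl
        exact hyf hyz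
      · refine Or.inr (Or.inr ?_)
        rw [mem_sdiff]
        refine ⟨hz2, ?_⟩
        intro hz3
        have hfz : G.Adj f z := (memNb f z).1 (mem_inter.1 hz3).1
        exact hyf (h.loc.A5 z hz2 y (mem_inter.2 ⟨(memNb z y).2 hyz.symm, hyF⟩) f
          (mem_inter.2 ⟨(memNb z f).2 hfz.symm, hfF⟩) hyne)
    have h2 := card_le_card h1
    rw [h.reg y] at h2
    have h3 := card_union_le (Nb G y ∩ U) (((F.erase y).erase f) ∪ (P \ (Nb G f ∩ P)))
    have h4 := card_union_le ((F.erase y).erase f) (P \ (Nb G f ∩ P))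
    have h5 : ((F.erase y).erase f).card + 2 = F.card := by
      have h51 := card_erase_add_one (s := F.erase y) (a := f) (mem_erase.2 ⟨hyne.symm, hfF⟩)
      have h52 := card_erase_add_one (s := F) (a := y) hyF
      omega
    have h6 : (P \ (Nb G f ∩ P)).card + p = P.card := by
      rw [hp]
      exact card_sdiff_add_card_eq_card inter_subset_right
    have h7 : Nb G y ∩ U ⊆ W := by
      intro z hz
      rw [hWdef, mem_filter]
      exact ⟨(mem_inter.1 hz).2, hF.B4U y hyF hy'.2 hyc z (mem_inter.1 hz).2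
        ((memNb y z).1 (mem_inter.1 hz).1)⟩
    have h8 := card_le_card h7
    omega
  -- (e)
  let g : V → ℚ := fun w => 1 / ((p : ℚ) - ((Q w).card : ℚ))
  have hgpos : ∀ w ∈ W, (0 : ℚ) < (p : ℚ) - ((Q w).card : ℚ) := by
    intro w hw
    have h1 := hqp w hw
    have h2 : (((Q w).card : ℚ)) + 1 ≤ (p : ℚ) := by exact_mod_cast h1
    linarith
  have hswap : ∑ b ∈ X', ∑ w ∈ U.filter (fun w => G.Adj b w ∧ ¬ G.Adj f w), g w
      = ∑ w ∈ W, ∑ b ∈ X w, g w := by
    apply Finset.sum_comm'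
    intro b w
    constructor
    · rintro ⟨hb, hw⟩
      rw [hX'def, mem_filter] at hb
      rw [mem_filter] at hw
      refine ⟨mem_filter.2 ⟨mem_inter.2 ⟨(memNb w b).2 hw.2.1.symm, (mem_inter.1 hb.1).2⟩,
        (memNb u b).1 (mem_inter.1 hb.1).1⟩, ?_⟩
      rw [hWdef, mem_filter]
      exact ⟨hw.1, hw.2.2⟩
    · rintro ⟨hb, hw⟩
      exact ⟨hXX' w hw hb, hwb w hw b hb⟩
  have hup : ∑ b ∈ X', ∑ w ∈ U.filter (fun w => G.Adj b w ∧ ¬ G.Adj f w), g w
      ≤ (X'.card : ℚ) := by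
    have h1 : ∀ b ∈ X', ∑ w ∈ U.filter (fun w => G.Adj b w ∧ ¬ G.Adj f w), g w ≤ 1 := by
      intro b hb
      rcases (U.filter (fun w => G.Adj b w ∧ ¬ G.Adj f w)).eq_empty_or_nonempty with he | hne
      · rw [he, sum_empty]; norm_num
      · have hpos : (0 : ℚ) < ((U.filter (fun w => G.Adj b w ∧ ¬ G.Adj f w)).card : ℚ) := by
          exact_mod_cast card_pos.2 hne
        have h2 : ∀ w ∈ U.filter (fun w => G.Adj b w ∧ ¬ G.Adj f w),
            g w ≤ 1 / ((U.filter (fun w => G.Adj b w ∧ ¬ G.Adj f w)).card : ℚ) := by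
          intro w hw
          have hw' := mem_filter.1 hw
          have hwW : w ∈ W := by
            rw [hWdef, mem_filter]; exact ⟨hw'.1, hw'.2.2⟩
          have hbX : b ∈ X w := by
            rw [hX'def, mem_filter] at hb
            exact mem_filter.2 ⟨mem_inter.2 ⟨(memNb w b).2 hw'.2.1.symm, (mem_inter.1 hb.1).2⟩,
              (memNb u b).1 (mem_inter.1 hb.1).1⟩
          have h3 := hd w hwW b hbX
          have h4 : ((U.filter (fun w => G.Adj b w ∧ ¬ G.Adj f w)).card : ℚ) +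
              ((Q w).card : ℚ) ≤ (p : ℚ) := by exact_mod_cast h3
          exact one_div_le_one_div_of_le hpos (by linarith)
        have h5 := sum_le_card_nsmul _ _ _ h2
        rw [nsmul_eq_mul, mul_one_div, div_self hpos.ne'] at h5
        exact h5
    have h2 := sum_le_card_nsmul _ _ _ h1
    rw [nsmul_eq_mul, mul_one] at h2
    exact h2
  have hppos : (0 : ℚ) < (p : ℚ) := by exact_mod_cast hp1
  have hlow : (W.card : ℚ) * ((K : ℚ) / (p : ℚ)) ≤ ∑ w ∈ W, ∑ b ∈ X w, g w := by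
    have h1 : ∀ w ∈ W, (K : ℚ) / (p : ℚ) ≤ ∑ b ∈ X w, g w := by
      intro w hw
      rw [sum_const, nsmul_eq_mul, mul_one_div, div_le_div_iff₀ hppos (hgpos w hw)]
      have h2 : (K : ℚ) ≤ ((X w).card : ℚ) + ((Q w).card : ℚ) := by exact_mod_cast hKw w hw
      have h3 : (p : ℚ) ≤ (K : ℚ) := by exact_mod_cast hpK
      have h4 : (0 : ℚ) ≤ ((Q w).card : ℚ) := by positivity
      nlinarith [mul_le_mul_of_nonneg_left h3 h4, mul_le_mul_of_nonneg_right h2 hppos.le]
    have h2 := card_nsmul_le_sum _ _ _ h1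
    rw [nsmul_eq_mul] at h2
    exact h2
  have hfin : (W.card : ℚ) * ((K : ℚ) / (p : ℚ)) ≤ (X'.card : ℚ) := by
    rw [hswap] at hup
    exact hlow.trans hup
  have h1 : ((X'.card : ℚ)) + 1 ≤ (K : ℚ) := by exact_mod_cast hX'
  have h2 : (p : ℚ) + 2 ≤ (W.card : ℚ) := by exact_mod_cast hWcard
  have hKp : (0 : ℚ) ≤ (K : ℚ) / (p : ℚ) := by positivity
  have h3 : (p : ℚ) * ((K : ℚ) / (p : ℚ)) = (K : ℚ) := by
    field_simp
  nlinarith [mul_le_mul_of_nonneg_right h2 hKp]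

end Pool.Agent.T2h75.PD
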