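import Pool.Agent.T2h75.PD.Stm

/-!
# Project PD, task W0
-/

namespace Pool.Agent.T2h75.PD
open Classical Finset

theorem w0_mem_Nb {V : Type} [Fintype V] (G : SimpleGraph V) (v w : V) :
    w ∈ Nb G v ↔ G.Adj v w := by
  simp [Nb]

theorem t_W0 : S_W0 := by
  intro V _ G K r F P U P' b0 u c c' f f' hc hf
  by_contra hcon
  push Not at hcon
  have hfF : f ∈ F := (mem_inter.1 hc.fB).2
  have hcP : c ∈ P := hc.P'P hc.cP'
  have h1 : U ∪ (F.erase f) ∪ {c} ⊆ Nb G f := by
    intro y hy
    rw [w0_mem_Nb]
    rcases mem_union.1 hy with hy | hy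
    · rcases mem_union.1 hy with hy | hy
      · exact hcon y hy
      · have hyf := Finset.ne_of_mem_erase hy
        have hyF := Finset.mem_of_mem_erase hy
        by_cases huy : G.Adj u y
        · exact hc.loc.Bclq u hc.uU f hc.fB y (mem_inter.2 ⟨(w0_mem_Nb G u y).2 huy, hyF⟩)
            (Ne.symm hyf)
        · obtain ⟨w, hw, hwy⟩ := hc.loc.hU y hyF
          have hyc : G.Adj y c := by
            by_contra hyc
            exact hf.B4U y hyF huy hyc w hw hwy.symm (hcon w hw)
          exact ((hf.B4 y hyF huy).2 hyc).symm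
    · rw [mem_singleton] at hy
      rw [hy]
      exact hc.fc
  have h2 : (U ∪ (F.erase f) ∪ {c}).card = U.card + (F.erase f).card + 1 := by
    rw [card_union_of_disjoint, card_union_of_disjoint, card_singleton]
    · exact (hc.loc.hFU.symm).mono_right (erase_subset _ _)
    · rw [disjoint_singleton_right, mem_union]
      rintro (h | h)
      · exact disjoint_left.1 hc.loc.hPU hcP h
      · exact disjoint_left.1 hc.loc.hFP (mem_of_mem_erase h) hcP
  have h3 : Nb G b0 ⊆ U ∪ F.erase b0 := by
    intro y hy
    have := hc.loc.nb b0 hc.b0F hy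
    rw [w0_mem_Nb] at hy
    rcases mem_union.1 this with h | h
    · rcases mem_union.1 h with h | h
      · exact mem_union_left _ h
      · exact mem_union_right _ (mem_erase.2 ⟨hy.ne', h⟩)
    · exact (hc.b0P y h hy).elim
  have h4 := card_le_card h1
  have h5 := card_le_card h3
  have h6 := card_union_le U (F.erase b0)
  rw [h2, hc.reg, card_erase_of_mem hfF] at h4
  rw [hc.reg] at h5
  rw [card_erase_of_mem hc.b0F] at h6
  have h7 : 0 < F.card := card_pos.2 ⟨f, hfF⟩
  omega

end Pool.Agent.T2h75.PD
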